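import Mathlib

open Polynomial

namespace Pool.Agent.Lib.MP_546dcb_an

variable {H : Type*} [NormedAddCommGroup H] [InnerProductSpace ℂ H]

/- accretive operators -/
def Acc (B : H →L[ℂ] H) : Prop := ∀ x : H, 0 ≤ (inner ℂ (B x) x).re

lemma acc_expand (B : H →L[ℂ] H) (u v : ℝ) (x : H) :
    ‖(u : ℂ) • x + (v : ℂ) • B x‖ ^ 2
      = u ^ 2 * ‖x‖ ^ 2 + 2 * (u * v) * (inner ℂ (B x) x).re + v ^ 2 * ‖B x‖ ^ 2 := by
  rw [@norm_add_sq ℂ]
  rw [norm_smul, norm_smul, inner_smul_left, inner_smul_right]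
  have h1 : (inner ℂ x (B x)).re = (inner ℂ (B x) x).re := by
    simpa using inner_re_symm (𝕜 := ℂ) x (B x)
  have h2 : RCLike.re ((starRingEnd ℂ) (u : ℂ) * ((v : ℂ) * inner ℂ x (B x)))
      = u * v * (inner ℂ (B x) x).re := by
    rw [Complex.conj_ofReal, ← mul_assoc, ← Complex.ofReal_mul]
    rw [← h1]
    simp
  rw [h2]
  simp only [Complex.norm_real, mul_pow, Real.norm_eq_abs, sq_abs]
  ring

lemma acc_lower {B : H →L[ℂ] H} (hB : Acc B) {M : ℝ} (hM : 0 ≤ M) (x : H) :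
    ‖(M : ℂ) • B x‖ ≤ ‖x + (M : ℂ) • B x‖ := by
  have h := acc_expand B 1 M x
  have h0 : ‖(M : ℂ) • B x‖ ^ 2 ≤ ‖x + (M : ℂ) • B x‖ ^ 2 := by
    have e1 : ‖x + (M : ℂ) • B x‖ ^ 2 = 1 ^ 2 * ‖x‖ ^ 2 + 2 * (1 * M) * (inner ℂ (B x) x).re
        + M ^ 2 * ‖B x‖ ^ 2 := by
      rw [← h]; simp
    have e2 : ‖(M : ℂ) • B x‖ ^ 2 = M ^ 2 * ‖B x‖ ^ 2 := by
      rw [norm_smul, mul_pow]; simp
    rw [e1, e2]
    have := hB x
    have h3 : 0 ≤ 2 * (1 * M) * (inner ℂ (B x) x).re := by positivity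
    nlinarith [sq_nonneg ‖x‖]
  exact le_of_sq_le_sq h0 (norm_nonneg _)

lemma acc_contr {B : H →L[ℂ] H} (hB : Acc B) (hn : ‖B‖ ≤ 2) {M : ℝ} (hM : 0 ≤ M) {s : ℝ}
    (hs : s = 1 / (1 + 4 * M ^ 2)) :
    ‖(1 : H →L[ℂ] H) - (s : ℂ) • (1 + (M : ℂ) • B)‖ ≤ Real.sqrt (1 - s) := by
  have hpos : 0 < 1 + 4 * M ^ 2 := by positivity
  have hs0 : 0 < s := by rw [hs]; positivity
  have hs1 : s ≤ 1 := by
    rw [hs, div_le_one hpos]; nlinarith [sq_nonneg M]
  refine ContinuousLinearMap.opNorm_le_bound _ (Real.sqrt_nonneg _) (fun x => ?_)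
  have h1 : ((1 : H →L[ℂ] H) - (s : ℂ) • (1 + (M : ℂ) • B)) x
      = ((1 - s : ℝ) : ℂ) • x + ((-(s * M) : ℝ) : ℂ) • B x := by
    simp only [sub_apply, one_apply_eq_self, smul_apply, add_apply]
    push_cast
    module
  rw [h1]
  have h2 := acc_expand B (1 - s) (-(s * M)) x
  have hBx : ‖B x‖ ≤ 2 * ‖x‖ := le_trans (B.le_opNorm x) (by gcongr)
  have hacc := hB x
  have key : ‖((1 - s : ℝ) : ℂ) • x + ((-(s * M) : ℝ) : ℂ) • B x‖ ^ 2 ≤ (1 - s) * ‖x‖ ^ 2 := by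
    rw [h2]
    have h3 : 2 * ((1 - s) * -(s * M)) * (inner ℂ (B x) x).re ≤ 0 := by
      have : 0 ≤ 2 * ((1 - s) * (s * M)) * (inner ℂ (B x) x).re := by
        have : 0 ≤ 1 - s := by linarith
        positivity
      linarith
    have h4 : ‖B x‖ ^ 2 ≤ 4 * ‖x‖ ^ 2 := by
      have := mul_self_le_mul_self (norm_nonneg _) hBx
      nlinarith
    have h5 : (-(s * M)) ^ 2 * ‖B x‖ ^ 2 ≤ (s * M) ^ 2 * (4 * ‖x‖ ^ 2) := by
      have : (-(s * M)) ^ 2 = (s * M) ^ 2 := by ring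
      rw [this]
      exact mul_le_mul_of_nonneg_left h4 (by positivity)
    have h6 : (1 - s) ^ 2 + (s * M) ^ 2 * 4 = 1 - s := by
      have : s * (1 + 4 * M ^ 2) = 1 := by rw [hs]; field_simp
      have h7 : s ^ 2 * (1 + 4 * M ^ 2) = s := by
        calc s ^ 2 * (1 + 4 * M ^ 2) = s * (s * (1 + 4 * M ^ 2)) := by ring
          _ = s := by rw [this, mul_one]
      nlinarith
    calc (1 - s) ^ 2 * ‖x‖ ^ 2 + 2 * ((1 - s) * -(s * M)) * (inner ℂ (B x) x).re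
          + (-(s * M)) ^ 2 * ‖B x‖ ^ 2
        ≤ (1 - s) ^ 2 * ‖x‖ ^ 2 + 0 + (s * M) ^ 2 * (4 * ‖x‖ ^ 2) := by gcongr
      _ = ((1 - s) ^ 2 + (s * M) ^ 2 * 4) * ‖x‖ ^ 2 := by ring
      _ = (1 - s) * ‖x‖ ^ 2 := by rw [h6]
  have h8 : 0 ≤ 1 - s := by linarith
  have h9 : (1 - s) * ‖x‖ ^ 2 = (Real.sqrt (1 - s) * ‖x‖) ^ 2 := by
    rw [mul_pow, Real.sq_sqrt h8]
  rw [h9] at key
  exact le_of_sq_le_sq key (by positivity)

/- The polynomials -/
noncomputable def Spoly (M s : ℝ) : ℂ[X] := 1 - C (s : ℂ) * (1 + C (M : ℂ) * X)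

noncomputable def gpoly (M s : ℝ) (K : ℕ) : ℂ[X] :=
  C (s : ℂ) * ∑ k ∈ Finset.range K, Spoly M s ^ k

noncomputable def Wpoly (M s : ℝ) (K : ℕ) : ℂ[X] := C (M : ℂ) * X * gpoly M s K

lemma gpoly_mul (M s : ℝ) (K : ℕ) :
    (1 + C (M : ℂ) * X) * gpoly M s K = 1 - Spoly M s ^ K := by
  have h := geom_sum_mul_neg (Spoly M s) K
  have h2 : (1 : ℂ[X]) - Spoly M s = C (s : ℂ) * (1 + C (M : ℂ) * X) := by
    unfold Spoly; ring
  rw [h2] at h
  rw [← h]; unfold gpoly; ring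

lemma one_sub_W (M s : ℝ) (K : ℕ) :
    1 - Wpoly M s K = gpoly M s K + Spoly M s ^ K := by
  have h := gpoly_mul M s K
  unfold Wpoly
  linear_combination (-1 : ℂ[X]) * h

lemma key_factor (M s : ℝ) (K n i : ℕ) :
    (X : ℂ[X]) ^ (i + 1) * (1 - Wpoly M s K ^ n)
      = X ^ i * (∑ k ∈ Finset.range n, Wpoly M s K ^ k)
        * (X * gpoly M s K + X * Spoly M s ^ K) := by
  have h := geom_sum_mul_neg (Wpoly M s K) n
  rw [← h, one_sub_W]; ring

lemma aeval_S (B : H →L[ℂ] H) (M s : ℝ) :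
    aeval B (Spoly M s) = (1 : H →L[ℂ] H) - (s : ℂ) • (1 + (M : ℂ) • B) := by
  unfold Spoly
  simp only [map_sub, map_one, map_mul, aeval_C, map_add, aeval_X, Algebra.algebraMap_eq_smul_one,
    smul_mul_assoc, one_mul]

lemma norm_pow_le' (B : H →L[ℂ] H) {c : ℝ} (hc : ‖B‖ ≤ c) (hc1 : 0 ≤ c) (n : ℕ) :
    ‖B ^ n‖ ≤ c ^ n := by
  induction n with
  | zero =>
    simp only [pow_zero]
    exact ContinuousLinearMap.norm_id_le
  | succ n ih =>
    rw [pow_succ, pow_succ]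
    calc ‖B ^ n * B‖ ≤ ‖B ^ n‖ * ‖B‖ := norm_mul_le _ _
      _ ≤ c ^ n * c := by gcongr

lemma acc_bound {B : H →L[ℂ] H} (hB : Acc B) (hn : ‖B‖ ≤ 2) {M : ℝ} (hM : 0 < M) {s : ℝ}
    (hs : s = 1 / (1 + 4 * M ^ 2)) (K n i : ℕ) :
    ‖aeval B ((X : ℂ[X]) ^ (i + 1) * (1 - Wpoly M s K ^ n))‖
      ≤ 2 ^ i * (∑ k ∈ Finset.range n, (2 : ℝ) ^ k) * (2 / M + 2 * Real.sqrt (1 - s) ^ K) := by
  have hpos : 0 < 1 + 4 * M ^ 2 := by positivity
  have hs0 : 0 < s := by rw [hs]; positivity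
  have hs1 : s ≤ 1 := by
    rw [hs, div_le_one hpos]; nlinarith [sq_nonneg M]
  have hth1 : Real.sqrt (1 - s) ≤ 1 := Real.sqrt_le_one.mpr (by linarith)
  have hth0 : 0 ≤ Real.sqrt (1 - s) := Real.sqrt_nonneg _
  have hS : ‖aeval B (Spoly M s)‖ ≤ Real.sqrt (1 - s) := by
    rw [aeval_S]; exact acc_contr hB hn hM.le hs
  have hSK : ‖aeval B (Spoly M s ^ K)‖ ≤ Real.sqrt (1 - s) ^ K := by
    rw [map_pow]; exact norm_pow_le' _ hS hth0 K
  have hSK1 : ‖aeval B (Spoly M s ^ K)‖ ≤ 1 := hSK.trans (pow_le_one₀ hth0 hth1)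
  -- W bound
  have hW : ‖aeval B (Wpoly M s K)‖ ≤ 2 := by
    refine ContinuousLinearMap.opNorm_le_bound _ (by norm_num) (fun x => ?_)
    have e1 : aeval B (Wpoly M s K) x = (M : ℂ) • B (aeval B (gpoly M s K) x) := by
      unfold Wpoly
      simp [map_mul, Algebra.algebraMap_eq_smul_one]
    have e2 : aeval B (gpoly M s K) x + (M : ℂ) • B (aeval B (gpoly M s K) x)
        = x - aeval B (Spoly M s ^ K) x := by
      have h := congrArg (fun p => (aeval B p) x) (gpoly_mul M s K)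
      simp only [map_mul, map_add, map_one, map_sub, aeval_C, aeval_X,
        Algebra.algebraMap_eq_smul_one] at h
      simpa [add_mul] using h
    rw [e1]
    calc ‖(M : ℂ) • B (aeval B (gpoly M s K) x)‖
        ≤ ‖aeval B (gpoly M s K) x + (M : ℂ) • B (aeval B (gpoly M s K) x)‖ :=
          acc_lower hB hM.le _
      _ = ‖x - aeval B (Spoly M s ^ K) x‖ := by rw [e2]
      _ ≤ ‖x‖ + ‖aeval B (Spoly M s ^ K) x‖ := norm_sub_le _ _
      _ ≤ ‖x‖ + 1 * ‖x‖ := by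
          gcongr
          exact le_trans (ContinuousLinearMap.le_opNorm _ _) (by gcongr)
      _ = 2 * ‖x‖ := by ring
  have hXg : ‖aeval B (X * gpoly M s K)‖ ≤ 2 / M := by
    have e : Wpoly M s K = C (M : ℂ) * (X * gpoly M s K) := by unfold Wpoly; ring
    rw [e, map_mul, aeval_C, Algebra.algebraMap_eq_smul_one, smul_mul_assoc, one_mul,
      norm_smul, Complex.norm_real, Real.norm_eq_abs, abs_of_pos hM] at hW
    rw [le_div_iff₀ hM]; linarith
  have hXS : ‖aeval B (X * Spoly M s ^ K)‖ ≤ 2 * Real.sqrt (1 - s) ^ K := by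
    rw [map_mul, aeval_X]
    exact le_trans (norm_mul_le _ _) (by gcongr)
  have hsum : ‖aeval B (∑ k ∈ Finset.range n, Wpoly M s K ^ k)‖
      ≤ ∑ k ∈ Finset.range n, (2 : ℝ) ^ k := by
    rw [map_sum]
    refine norm_sum_le_of_le _ (fun k _ => ?_)
    rw [map_pow]
    exact norm_pow_le' _ hW (by norm_num) k
  have hXi : ‖aeval B ((X : ℂ[X]) ^ i)‖ ≤ 2 ^ i := by
    rw [map_pow, aeval_X]; exact norm_pow_le' _ hn (by norm_num) i
  rw [key_factor, map_mul, map_mul, map_add]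
  have hp : 0 ≤ ∑ k ∈ Finset.range n, (2 : ℝ) ^ k := Finset.sum_nonneg (fun _ _ => by positivity)
  calc ‖aeval B ((X : ℂ[X]) ^ i) * aeval B (∑ k ∈ Finset.range n, Wpoly M s K ^ k)
        * (aeval B (X * gpoly M s K) + aeval B (X * Spoly M s ^ K))‖
      ≤ ‖aeval B ((X : ℂ[X]) ^ i)‖ * ‖aeval B (∑ k ∈ Finset.range n, Wpoly M s K ^ k)‖
        * (‖aeval B (X * gpoly M s K)‖ + ‖aeval B (X * Spoly M s ^ K)‖) := by
        refine le_trans (norm_mul_le _ _) ?_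
        gcongr
        · exact norm_mul_le _ _
        · exact norm_add_le _ _
    _ ≤ 2 ^ i * (∑ k ∈ Finset.range n, (2 : ℝ) ^ k) * (2 / M + 2 * Real.sqrt (1 - s) ^ K) := by
        gcongr

/- small polynomials with prescribed Taylor expansion, uniformly on accretive operators -/
lemma exists_small (n i : ℕ) (ε : ℝ) (hε : 0 < ε) :
    ∃ q : ℂ[X], X ^ n ∣ q - X ^ (i + 1) ∧
      ∀ B : H →L[ℂ] H, Acc B → ‖B‖ ≤ 2 → ‖aeval B q‖ ≤ ε := by
  set D : ℝ := 2 ^ i * (∑ k ∈ Finset.range n, (2 : ℝ) ^ k) + 1 with hD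
  have hp : 0 ≤ 2 ^ i * ∑ k ∈ Finset.range n, (2 : ℝ) ^ k := by positivity
  have hD0 : 0 < D := by linarith
  set M : ℝ := 4 * D / ε with hMdef
  have hM : 0 < M := by positivity
  set s : ℝ := 1 / (1 + 4 * M ^ 2) with hs
  have hpos : 0 < 1 + 4 * M ^ 2 := by positivity
  have hs0 : 0 < s := by positivity
  have hth1 : Real.sqrt (1 - s) < 1 := by
    rw [Real.sqrt_lt' one_pos]; linarith
  have hth0 : 0 ≤ Real.sqrt (1 - s) := Real.sqrt_nonneg _
  obtain ⟨K, hK⟩ := exists_pow_lt_of_lt_one (show 0 < ε / (4 * D) by positivity) hth1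
  refine ⟨X ^ (i + 1) * (1 - Wpoly M s K ^ n), ?_, fun B hB hn => ?_⟩
  · refine ⟨- (X ^ (i + 1)) * (C (M : ℂ) * gpoly M s K) ^ n, ?_⟩
    unfold Wpoly; ring
  · refine le_trans (acc_bound hB hn hM hs K n i) ?_
    have h1 : 2 / M = ε / (2 * D) := by
      rw [hMdef]; field_simp; ring
    have h2 : 2 * Real.sqrt (1 - s) ^ K ≤ ε / (2 * D) := by
      calc 2 * Real.sqrt (1 - s) ^ K ≤ 2 * (ε / (4 * D)) := by gcongr
        _ = ε / (2 * D) := by field_simp; ring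
    calc 2 ^ i * (∑ k ∈ Finset.range n, (2 : ℝ) ^ k) * (2 / M + 2 * Real.sqrt (1 - s) ^ K)
        ≤ D * (ε / (2 * D) + ε / (2 * D)) := by
          rw [h1]
          gcongr
          linarith
      _ = ε := by field_simp; ring

lemma exists_approx_poly {n : ℕ} (p : ℂ[X]) :
    ∀ ε : ℝ, 0 < ε → ∃ q : ℂ[X], X ^ n ∣ q - p ∧
      ∀ B : H →L[ℂ] H, Acc B → ‖B‖ ≤ 2 → ‖aeval B q - (p.coeff 0) • (1 : H →L[ℂ] H)‖ ≤ ε := by
  induction p using Polynomial.induction_on' with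
  | add p q hp hq =>
    intro ε hε
    obtain ⟨p', hp1, hp2⟩ := hp (ε / 2) (by positivity)
    obtain ⟨q', hq1, hq2⟩ := hq (ε / 2) (by positivity)
    refine ⟨p' + q', ?_, fun B hB hn => ?_⟩
    · have : p' + q' - (p + q) = (p' - p) + (q' - q) := by ring
      rw [this]; exact dvd_add hp1 hq1
    · have : aeval B (p' + q') - ((p + q).coeff 0) • (1 : H →L[ℂ] H)
        = (aeval B p' - (p.coeff 0) • (1 : H →L[ℂ] H)) + (aeval B q' - (q.coeff 0) • (1 : H →L[ℂ] H)) := by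
        rw [map_add, coeff_add, add_smul]; abel
      rw [this]
      refine le_trans (norm_add_le _ _) ?_
      have := hp2 B hB hn
      have := hq2 B hB hn
      linarith
  | monomial k a =>
    intro ε hε
    rcases k with _ | k
    · refine ⟨monomial 0 a, by simp, fun B _ _ => ?_⟩
      have : aeval B (monomial 0 a) - ((monomial 0 a).coeff 0) • (1 : H →L[ℂ] H) = 0 := by
        rw [monomial_zero_left, aeval_C, coeff_C_zero, Algebra.algebraMap_eq_smul_one, sub_self]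
      rw [this, norm_zero]; exact hε.le
    · obtain ⟨q, hq1, hq2⟩ := exists_small (H := H) n k (ε / (‖a‖ + 1)) (by positivity)
      refine ⟨C a * q, ?_, fun B hB hn => ?_⟩
      · have : C a * q - monomial (k + 1) a = C a * (q - X ^ (k + 1)) := by
          rw [← C_mul_X_pow_eq_monomial]; ring
        rw [this]; exact Dvd.dvd.mul_left hq1 _
      · have h0 : (monomial (k + 1) a : ℂ[X]).coeff 0 = 0 := by
          rw [coeff_monomial]; simp
        rw [h0, zero_smul, sub_zero, map_mul, aeval_C, Algebra.algebraMap_eq_smul_one,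
          smul_mul_assoc, one_mul, norm_smul]
        have h1 := hq2 B hB hn
        calc ‖a‖ * ‖aeval B q‖ ≤ (‖a‖ + 1) * (ε / (‖a‖ + 1)) := by gcongr; linarith
          _ = ε := by field_simp

/- Lipschitz property of polynomials of an operator -/
lemma pow_lip (n : ℕ) : ∃ L : ℝ, 0 ≤ L ∧ ∀ S T : H →L[ℂ] H, ‖S‖ ≤ 3 → ‖T‖ ≤ 3 →
    ‖S ^ n - T ^ n‖ ≤ L * ‖S - T‖ := by
  induction n with
  | zero => exact ⟨0, le_refl _, fun S T _ _ => by simp⟩
  | succ n ih =>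
    obtain ⟨L, hL, h⟩ := ih
    refine ⟨3 * L + 3 ^ n, by positivity, fun S T hS hT => ?_⟩
    have e : S ^ (n + 1) - T ^ (n + 1) = S * (S ^ n - T ^ n) + (S - T) * T ^ n := by
      rw [pow_succ', pow_succ']; noncomm_ring
    rw [e]
    calc ‖S * (S ^ n - T ^ n) + (S - T) * T ^ n‖
        ≤ ‖S‖ * ‖S ^ n - T ^ n‖ + ‖S - T‖ * ‖T ^ n‖ := by
          refine le_trans (norm_add_le _ _) ?_
          gcongr <;> exact norm_mul_le _ _
      _ ≤ 3 * (L * ‖S - T‖) + ‖S - T‖ * 3 ^ n := by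
          gcongr
          · exact h S T hS hT
          · exact norm_pow_le' _ hT (by norm_num) n
      _ = (3 * L + 3 ^ n) * ‖S - T‖ := by ring

lemma aeval_lip (p : ℂ[X]) : ∃ L : ℝ, 0 ≤ L ∧ ∀ S T : H →L[ℂ] H, ‖S‖ ≤ 3 → ‖T‖ ≤ 3 →
    ‖aeval S p - aeval T p‖ ≤ L * ‖S - T‖ := by
  induction p using Polynomial.induction_on' with
  | add p q hp hq =>
    obtain ⟨L, hL, h⟩ := hp
    obtain ⟨L', hL', h'⟩ := hq
    refine ⟨L + L', by positivity, fun S T hS hT => ?_⟩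
    have : aeval S (p + q) - aeval T (p + q) = (aeval S p - aeval T p) + (aeval S q - aeval T q) := by
      rw [map_add, map_add]; abel
    rw [this, add_mul]
    exact le_trans (norm_add_le _ _) (add_le_add (h S T hS hT) (h' S T hS hT))
  | monomial k a =>
    obtain ⟨L, hL, h⟩ := pow_lip (H := H) k
    refine ⟨‖a‖ * L, by positivity, fun S T hS hT => ?_⟩
    have : aeval S (monomial k a) - aeval T (monomial k a) = a • (S ^ k - T ^ k) := by
      rw [aeval_monomial, aeval_monomial, Algebra.algebraMap_eq_smul_one, smul_mul_assoc, one_mul,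
        smul_mul_assoc, one_mul, smul_sub]
    rw [this, norm_smul, mul_assoc]
    gcongr
    exact h S T hS hT

/- polynomials of A + B when A B = B A = 0 -/
lemma add_pow_of_mul_zero {A B : H →L[ℂ] H} (h1 : A * B = 0) (h2 : B * A = 0) (k : ℕ) :
    (A + B) ^ (k + 1) = A ^ (k + 1) + B ^ (k + 1) := by
  induction k with
  | zero => simp
  | succ k ih =>
    rw [pow_succ, ih, add_mul, mul_add, mul_add]
    have e1 : A ^ (k + 1) * B = 0 := by rw [pow_succ, mul_assoc, h1, mul_zero]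
    have e2 : B ^ (k + 1) * A = 0 := by rw [pow_succ, mul_assoc, h2, mul_zero]
    rw [e1, e2, add_zero, zero_add, ← pow_succ, ← pow_succ]

lemma aeval_add_of_mul_zero {A B : H →L[ℂ] H} (h1 : A * B = 0) (h2 : B * A = 0) (p : ℂ[X]) :
    aeval (A + B) p = aeval A p + (aeval B p - (p.coeff 0) • (1 : H →L[ℂ] H)) := by
  induction p using Polynomial.induction_on' with
  | add p q hp hq =>
    rw [map_add, map_add, map_add, hp, hq, coeff_add, add_smul]; abel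
  | monomial k a =>
    rcases k with _ | k
    · simp [monomial_zero_left, aeval_C, Algebra.algebraMap_eq_smul_one]
    · have h0 : (monomial (k + 1) a : ℂ[X]).coeff 0 = 0 := by
        rw [coeff_monomial]; simp
      rw [h0, zero_smul, sub_zero, aeval_monomial, aeval_monomial, aeval_monomial,
        add_pow_of_mul_zero h1 h2, mul_add]

/- the main approximation lemma: polynomials in T approximate polynomials in the nilpotent part A -/
lemma approx_nilpotent {n : ℕ} (hn1 : 1 ≤ n) (A : H →L[ℂ] H) (hA : A ^ n = 0) (p : ℂ[X])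
    (ε : ℝ) (hε : 0 < ε) :
    ∃ q : ℂ[X], ∃ δ : ℝ, 0 < δ ∧ ∀ T B : H →L[ℂ] H, Acc B → ‖B‖ ≤ 2 → A * B = 0 → B * A = 0 →
      ‖T‖ ≤ 3 → ‖A + B‖ ≤ 3 → ‖T - (A + B)‖ ≤ δ → ‖aeval T q - aeval A p‖ ≤ ε := by
  obtain ⟨q, hq1, hq2⟩ := exists_approx_poly (H := H) (n := n) p (ε / 2) (by positivity)
  obtain ⟨L, hL, hLip⟩ := aeval_lip (H := H) q
  refine ⟨q, ε / (2 * (L + 1)), by positivity, fun T B hB hB2 hAB hBA hT hAB2 hTAB => ?_⟩
  have h1 : aeval A q = aeval A p := by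
    obtain ⟨r, hr⟩ := hq1
    have : q = p + X ^ n * r := by rw [← hr]; ring
    rw [this, map_add, map_mul, map_pow, aeval_X, hA, zero_mul, add_zero]
  have h0 : q.coeff 0 = p.coeff 0 := by
    obtain ⟨r, hr⟩ := hq1
    have h2 : (q - p).coeff 0 = 0 := by
      rw [hr, coeff_zero_eq_eval_zero]
      simp only [eval_mul, eval_pow, eval_X]
      rw [zero_pow (by omega), zero_mul]
    rw [coeff_sub] at h2
    exact sub_eq_zero.mp h2
  have h2 := aeval_add_of_mul_zero hAB hBA q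
  rw [h1, h0] at h2
  have h3 : aeval T q - aeval A p
      = (aeval T q - aeval (A + B) q) + (aeval B q - (p.coeff 0) • (1 : H →L[ℂ] H)) := by
    rw [h2]; abel
  rw [h3]
  have h4 := hLip T (A + B) hT hAB2
  have h5 := hq2 B hB hB2
  have h6 : L * ‖T - (A + B)‖ ≤ ε / 2 := by
    calc L * ‖T - (A + B)‖ ≤ (L + 1) * (ε / (2 * (L + 1))) := by gcongr; linarith
      _ = ε / 2 := by field_simp
  calc ‖(aeval T q - aeval (A + B) q) + (aeval B q - (p.coeff 0) • (1 : H →L[ℂ] H))‖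
      ≤ ‖aeval T q - aeval (A + B) q‖ + ‖aeval B q - (p.coeff 0) • (1 : H →L[ℂ] H)‖ :=
        norm_add_le _ _
    _ ≤ ε := by linarith

end Pool.Agent.Lib.MP_546dcb_an
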