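import Mathlib
import Pool.Agent.Lib.MP_546dcb_an.AccPoly

open Polynomial Filter Topology

namespace Pool.Agent.Lib.MP_546dcb_an

/- weights -/
structure Adm (a w : ℕ → ℝ) : Prop where
  pos : ∀ i, 0 < a i
  le_one : ∀ i, a i ≤ 1
  anti : ∀ i, a (i + 1) ≤ a i
  step : ∀ i, w (i + 1) = 0 ∨ (w (i + 1) = 1 - a (i + 1) ∧ a (i + 1) = a i)

noncomputable def yrec (a w : ℕ → ℝ) (x : ℕ → ℂ) : ℕ → ℂ
  | 0 => 0
  | (i + 1) => (w (i + 1) : ℂ) * yrec a w x i + (a (i + 1) : ℂ) * x i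

lemma yrec_add (a w : ℕ → ℝ) (x x' : ℕ → ℂ) (i : ℕ) :
    yrec a w (fun j => x j + x' j) i = yrec a w x i + yrec a w x' i := by
  induction i with
  | zero => simp [yrec]
  | succ i ih => simp only [yrec, ih]; ring

lemma yrec_smul (a w : ℕ → ℝ) (c : ℂ) (x : ℕ → ℂ) (i : ℕ) :
    yrec a w (fun j => c * x j) i = c * yrec a w x i := by
  induction i with
  | zero => simp [yrec]
  | succ i ih => simp only [yrec, ih]; ring

lemma yrec_zero (a w : ℕ → ℝ) (x : ℕ → ℂ) (i : ℕ) (h : ∀ j < i, x j = 0) :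
    yrec a w x i = 0 := by
  induction i with
  | zero => simp [yrec]
  | succ i ih =>
    simp only [yrec]
    rw [ih (fun j hj => h j (by omega)), h i (by omega)]; simp

lemma yrec_first (a w : ℕ → ℝ) (x : ℕ → ℂ) (m : ℕ) (h : ∀ j < m, x j = 0) :
    yrec a w x (m + 1) = (a (m + 1) : ℂ) * x m := by
  simp only [yrec]
  rw [yrec_zero a w x m h]; simp

lemma yrec_congr {a w a' w' : ℕ → ℝ} {x x' : ℕ → ℂ} {n : ℕ}
    (h : ∀ i < n, a i = a' i ∧ w i = w' i) (hx : ∀ i < n, x i = x' i) :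
    ∀ i < n, yrec a w x i = yrec a' w' x' i := by
  intro i
  induction i with
  | zero => intro _; simp [yrec]
  | succ i ih =>
    intro hi
    simp only [yrec]
    rw [ih (by omega), (h (i + 1) hi).1, (h (i + 1) hi).2, hx i (by omega)]

lemma step_norm {a w : ℕ → ℝ} (h : Adm a w) (x : ℕ → ℂ) (i : ℕ) :
    ‖yrec a w x i‖ ^ 2 + ‖yrec a w x (i + 1)‖ ^ 2 / a (i + 1)
      ≤ ‖yrec a w x i‖ ^ 2 / a i + ‖x i‖ ^ 2 := by
  have hp := h.pos i
  have hp' := h.pos (i + 1)
  have h1 := h.le_one i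
  have h1' := h.le_one (i + 1)
  have e : yrec a w x (i + 1) = (w (i + 1) : ℂ) * yrec a w x i + (a (i + 1) : ℂ) * x i := rfl
  rw [e]
  set y := yrec a w x i
  rcases h.step i with hw | ⟨hw, ha⟩
  · rw [hw]
    have e1 : ‖((0 : ℝ) : ℂ) * y + (a (i + 1) : ℂ) * x i‖ ^ 2 / a (i + 1) = a (i + 1) * ‖x i‖ ^ 2 := by
      simp only [Complex.ofReal_zero, zero_mul, zero_add, norm_mul, Complex.norm_real,
        Real.norm_eq_abs, abs_of_pos hp', mul_pow]
      field_simp
    rw [e1]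
    have e2 : ‖y‖ ^ 2 ≤ ‖y‖ ^ 2 / a i := by
      rw [le_div_iff₀ hp]; nlinarith [sq_nonneg ‖y‖]
    have e3 : a (i + 1) * ‖x i‖ ^ 2 ≤ ‖x i‖ ^ 2 := by nlinarith [sq_nonneg ‖x i‖]
    linarith
  · rw [hw, ha]
    set s := a i
    rw [add_div' _ _ _ hp.ne', div_add' _ _ _ hp.ne', div_le_div_iff_of_pos_right hp]
    rw [Complex.sq_norm, Complex.sq_norm, Complex.sq_norm, Complex.normSq_apply,
      Complex.normSq_apply, Complex.normSq_apply]
    simp only [Complex.add_re, Complex.add_im, Complex.mul_re, Complex.mul_im, Complex.ofReal_re,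
      Complex.ofReal_im, zero_mul, sub_zero, add_zero]
    have k1 : 0 ≤ s * (1 - s) * ((y.re - (x i).re) ^ 2 + (y.im - (x i).im) ^ 2) := by
      have : 0 ≤ 1 - s := by linarith
      positivity
    nlinarith [k1]

lemma step_acc {a w : ℕ → ℝ} (h : Adm a w) (x : ℕ → ℂ) (i : ℕ) :
    ‖yrec a w x (i + 1)‖ ^ 2 / (2 * a (i + 1)) - ‖yrec a w x i‖ ^ 2 / (2 * a i)
      - a i * ‖x i‖ ^ 2 ≤ (inner ℂ (yrec a w x i) (x i)).re := by
  have hp := h.pos i
  have hp' := h.pos (i + 1)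
  have h1 := h.le_one i
  have h2 := h.anti i
  have e : yrec a w x (i + 1) = (w (i + 1) : ℂ) * yrec a w x i + (a (i + 1) : ℂ) * x i := rfl
  rw [e]
  set y := yrec a w x i
  have einner : (inner ℂ y (x i)).re = y.re * (x i).re + y.im * (x i).im := by
    simp [mul_comm]
  rw [einner]
  rcases h.step i with hw | ⟨hw, ha⟩
  · rw [hw]
    have e1 : ‖((0 : ℝ) : ℂ) * y + (a (i + 1) : ℂ) * x i‖ ^ 2 / (2 * a (i + 1))
        = a (i + 1) / 2 * ‖x i‖ ^ 2 := by
      simp only [Complex.ofReal_zero, zero_mul, zero_add, norm_mul, Complex.norm_real,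
        Real.norm_eq_abs, abs_of_pos hp', mul_pow]
      field_simp
    rw [e1]
    have k1 : a (i + 1) / 2 * ‖x i‖ ^ 2 ≤ a i / 2 * ‖x i‖ ^ 2 := by gcongr
    have k2 : -(‖y‖ ^ 2 / (2 * a i)) - a i / 2 * ‖x i‖ ^ 2
        ≤ y.re * (x i).re + y.im * (x i).im := by
      have : 0 ≤ ((y.re + a i * (x i).re) ^ 2 + (y.im + a i * (x i).im) ^ 2) / (2 * a i) := by
        positivity
      have e3 : ((y.re + a i * (x i).re) ^ 2 + (y.im + a i * (x i).im) ^ 2) / (2 * a i)
          = ‖y‖ ^ 2 / (2 * a i) + a i / 2 * ‖x i‖ ^ 2 + (y.re * (x i).re + y.im * (x i).im) := by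
        rw [Complex.sq_norm, Complex.sq_norm, Complex.normSq_apply, Complex.normSq_apply]
        field_simp
        ring
      linarith
    linarith
  · rw [hw, ha]
    set s := a i
    have k0 : ‖((1 - s : ℝ) : ℂ) * y + (s : ℂ) * x i‖ ^ 2
        = ‖y‖ ^ 2 + 2 * s * (y.re * (x i).re + y.im * (x i).im - ‖y‖ ^ 2)
          + s ^ 2 * ((x i).re - y.re) ^ 2 + s ^ 2 * ((x i).im - y.im) ^ 2 := by
      rw [Complex.sq_norm, Complex.sq_norm, Complex.normSq_apply, Complex.normSq_apply]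
      simp only [Complex.add_re, Complex.add_im, Complex.mul_re, Complex.mul_im, Complex.ofReal_re,
        Complex.ofReal_im, zero_mul, sub_zero, add_zero]
      ring
    rw [k0]
    have k1 : (‖y‖ ^ 2 + 2 * s * (y.re * (x i).re + y.im * (x i).im - ‖y‖ ^ 2)
          + s ^ 2 * ((x i).re - y.re) ^ 2 + s ^ 2 * ((x i).im - y.im) ^ 2) / (2 * s)
          - ‖y‖ ^ 2 / (2 * s)
        = (y.re * (x i).re + y.im * (x i).im - ‖y‖ ^ 2)
          + s / 2 * (((x i).re - y.re) ^ 2 + ((x i).im - y.im) ^ 2) := by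
      field_simp
      ring
    rw [k1]
    have k2 : ((x i).re - y.re) ^ 2 + ((x i).im - y.im) ^ 2 ≤ 2 * ‖x i‖ ^ 2 + 2 * ‖y‖ ^ 2 := by
      rw [Complex.sq_norm, Complex.sq_norm, Complex.normSq_apply, Complex.normSq_apply]
      nlinarith [sq_nonneg ((x i).re + y.re), sq_nonneg ((x i).im + y.im)]
    have k3 : s / 2 * (((x i).re - y.re) ^ 2 + ((x i).im - y.im) ^ 2)
        ≤ s / 2 * (2 * ‖x i‖ ^ 2 + 2 * ‖y‖ ^ 2) := by gcongr
    have k4 : s * ‖y‖ ^ 2 ≤ 1 * ‖y‖ ^ 2 := by gcongr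
    nlinarith

lemma anti_le {a w : ℕ → ℝ} (h : Adm a w) {n i : ℕ} (hi : n ≤ i) : a i ≤ a n := by
  induction i, hi using Nat.le_induction with
  | base => exact le_refl _
  | succ i _ ih => exact (h.anti i).trans ih

lemma sum_norm {a w : ℕ → ℝ} (h : Adm a w) (x : ℕ → ℂ) (n N : ℕ) (hN : n ≤ N) :
    ∑ i ∈ Finset.Ico n N, ‖yrec a w x i‖ ^ 2 + ‖yrec a w x N‖ ^ 2 / a N
      ≤ ‖yrec a w x n‖ ^ 2 / a n + ∑ i ∈ Finset.Ico n N, ‖x i‖ ^ 2 := by
  induction N, hN using Nat.le_induction with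
  | base => simp
  | succ N hN ih =>
    rw [Finset.sum_Ico_succ_top hN, Finset.sum_Ico_succ_top hN]
    have := step_norm h x N
    linarith

lemma sum_acc {a w : ℕ → ℝ} (h : Adm a w) (x : ℕ → ℂ) (n N : ℕ) (hN : n ≤ N) :
    ‖yrec a w x N‖ ^ 2 / (2 * a N) - ‖yrec a w x n‖ ^ 2 / (2 * a n)
      - a n * ∑ i ∈ Finset.Ico n N, ‖x i‖ ^ 2
      ≤ ∑ i ∈ Finset.Ico n N, (inner ℂ (yrec a w x i) (x i)).re := by
  induction N, hN using Nat.le_induction with
  | base => simp
  | succ N hN ih =>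
    rw [Finset.sum_Ico_succ_top hN, Finset.sum_Ico_succ_top hN]
    have h1 := step_acc h x N
    have h2 : a N * ‖x N‖ ^ 2 ≤ a n * ‖x N‖ ^ 2 := by
      have := anti_le h hN
      gcongr
    linarith

/- the Hilbert space -/
noncomputable abbrev E := lp (fun _ : ℕ => ℂ) 2

lemma E_hasSum (x : E) : HasSum (fun i => ‖x i‖ ^ 2) (‖x‖ ^ 2) := by
  have h := lp.hasSum_norm (p := 2) (by norm_num) x
  simpa using h

lemma E_summable (x : E) : Summable (fun i => ‖x i‖ ^ 2) := (E_hasSum x).summable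

lemma memE_of_bound (y : ℕ → ℂ) (C : ℝ) (h : ∀ N, ∑ i ∈ Finset.range N, ‖y i‖ ^ 2 ≤ C) :
    Memℓp y 2 := by
  refine memℓp_gen ?_
  have : Summable (fun i => ‖y i‖ ^ 2) :=
    summable_of_sum_range_le (fun i => by positivity) h
  simpa using this

lemma E_sum_le (x : E) (s : Finset ℕ) : ∑ i ∈ s, ‖x i‖ ^ 2 ≤ ‖x‖ ^ 2 :=
  sum_le_hasSum s (fun i _ => by positivity) (E_hasSum x)

lemma E_norm_le (x : E) (C : ℝ) (hC : 0 ≤ C) (h : ∀ N, ∑ i ∈ Finset.range N, ‖x i‖ ^ 2 ≤ C ^ 2) :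
    ‖x‖ ≤ C := by
  have h1 : ‖x‖ ^ 2 ≤ C ^ 2 := le_of_tendsto' (E_hasSum x).tendsto_sum_nat h
  exact le_of_sq_le_sq h1 hC

lemma y_bound {a w : ℕ → ℝ} (h : Adm a w) (x : E) (N : ℕ) :
    ∑ i ∈ Finset.range N, ‖yrec a w x i‖ ^ 2 ≤ ‖x‖ ^ 2 := by
  have h1 := sum_norm h x 0 N (Nat.zero_le _)
  rw [← Finset.range_eq_Ico] at h1
  have h2 : (0 : ℝ) ≤ ‖yrec a w x N‖ ^ 2 / a N := by
    have := h.pos N
    positivity
  have h3 : ‖yrec a w x 0‖ ^ 2 / a 0 = 0 := by simp [yrec]
  have h4 := E_sum_le x (Finset.range N)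
  linarith

noncomputable def Top {a w : ℕ → ℝ} (h : Adm a w) : E →L[ℂ] E :=
  LinearMap.mkContinuous
    { toFun := fun x => ⟨yrec a w x, memE_of_bound _ _ (y_bound h x)⟩
      map_add' := by
        intro x y
        apply lp.ext
        funext i
        exact yrec_add a w x y i
      map_smul' := by
        intro c x
        apply lp.ext
        funext i
        exact yrec_smul a w c x i } 1
    (by
      intro x
      rw [one_mul]
      exact E_norm_le _ _ (norm_nonneg _) (fun N => y_bound h x N))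

lemma Top_apply {a w : ℕ → ℝ} (h : Adm a w) (x : E) (i : ℕ) :
    (Top h x) i = yrec a w x i := rfl

lemma Top_norm {a w : ℕ → ℝ} (h : Adm a w) : ‖Top h‖ ≤ 1 :=
  LinearMap.mkContinuous_norm_le _ (by norm_num) _

/- projections -/
lemma P_bound (n : ℕ) (x : E) (N : ℕ) :
    ∑ i ∈ Finset.range N, ‖(if i < n then x i else 0 : ℂ)‖ ^ 2 ≤ ‖x‖ ^ 2 := by
  refine le_trans (Finset.sum_le_sum (fun i _ => ?_)) (E_sum_le x (Finset.range N))
  split_ifs
  · exact le_refl _
  · simp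

noncomputable def P (n : ℕ) : E →L[ℂ] E :=
  LinearMap.mkContinuous
    { toFun := fun x => ⟨fun i => if i < n then x i else 0, memE_of_bound _ _ (P_bound n x)⟩
      map_add' := by
        intro x y
        apply lp.ext
        funext i
        show (if i < n then (x + y : E) i else 0) = (if i < n then x i else 0) + (if i < n then y i else 0)
        split_ifs
        · rfl
        · simp
      map_smul' := by
        intro c x
        apply lp.ext
        funext i
        show (if i < n then (c • x : E) i else 0) = c * (if i < n then x i else 0)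
        split_ifs
        · rfl
        · simp } 1
    (by
      intro x
      rw [one_mul]
      exact E_norm_le _ _ (norm_nonneg _) (fun N => P_bound n x N))

lemma P_apply (n : ℕ) (x : E) (i : ℕ) : (P n x) i = if i < n then x i else 0 := rfl

lemma P_norm (n : ℕ) : ‖P n‖ ≤ 1 := LinearMap.mkContinuous_norm_le _ (by norm_num) _

noncomputable def Q (n : ℕ) : E →L[ℂ] E := 1 - P n

lemma Q_apply (n : ℕ) (x : E) (i : ℕ) : (Q n x) i = if i < n then 0 else x i := by
  have : (Q n x) i = x i - (P n x) i := rfl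
  rw [this, P_apply]
  split_ifs <;> simp

lemma Q_norm (n : ℕ) : ‖Q n‖ ≤ 1 := by
  refine ContinuousLinearMap.opNorm_le_bound _ (by norm_num) (fun x => ?_)
  rw [one_mul]
  refine E_norm_le _ _ (norm_nonneg _) (fun N => ?_)
  refine le_trans (Finset.sum_le_sum (fun i _ => ?_)) (E_sum_le x (Finset.range N))
  rw [Q_apply]
  split_ifs
  · simp
  · exact le_refl _

lemma P_add_Q (n : ℕ) (x : E) : P n x + Q n x = x := by
  unfold Q
  simp

/- tail part -/
noncomputable def tailOp {a w : ℕ → ℝ} (h : Adm a w) (n : ℕ) : E →L[ℂ] E :=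
  Q n * Top h * Q n + ((a n : ℝ) : ℂ) • Q n

noncomputable def headOp {a w : ℕ → ℝ} (h : Adm a w) (n : ℕ) : E →L[ℂ] E :=
  P n * Top h * P n

lemma tail_apply {a w : ℕ → ℝ} (h : Adm a w) (n : ℕ) (x : E) (i : ℕ) :
    (tailOp h n x) i = if i < n then 0 else yrec a w (Q n x) i + (a n : ℂ) * x i := by
  have : (tailOp h n x) i = (Q n (Top h (Q n x))) i + (a n : ℂ) * (Q n x) i := rfl
  rw [this, Q_apply, Q_apply]
  split_ifs
  · simp
  · rfl

lemma head_apply {a w : ℕ → ℝ} (h : Adm a w) (n : ℕ) (x : E) (i : ℕ) :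
    (headOp h n x) i = if i < n then yrec a w (P n x) i else 0 := by
  have : (headOp h n x) i = (P n (Top h (P n x))) i := rfl
  rw [this, P_apply]
  rfl

lemma tail_acc {a w : ℕ → ℝ} (h : Adm a w) (n : ℕ) : Acc (tailOp h n) := by
  intro x
  have h1 := lp.hasSum_inner (𝕜 := ℂ) (tailOp h n x) x
  have h2 : HasSum (fun i => (inner ℂ ((tailOp h n x) i) (x i)).re)
      (inner ℂ (tailOp h n x) x).re := by
    exact Complex.hasSum_re h1
  refine ge_of_tendsto h2.tendsto_sum_nat ?_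
  filter_upwards [eventually_ge_atTop n] with N hN
  have h3 := sum_acc h (Q n x) n N hN
  have h4 : yrec a w (Q n x) n = 0 := by
    apply yrec_zero
    intro j hj
    rw [Q_apply, if_pos hj]
  rw [h4] at h3
  have h5 : (0 : ℝ) ≤ ‖yrec a w (Q n x) N‖ ^ 2 / (2 * a N) := by
    have := h.pos N
    positivity
  rw [← Finset.sum_range_add_sum_Ico _ hN]
  have h6 : ∑ i ∈ Finset.range n, (inner ℂ ((tailOp h n x) i) (x i)).re = 0 := by
    apply Finset.sum_eq_zero
    intro i hi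
    rw [Finset.mem_range] at hi
    rw [tail_apply, if_pos hi]
    simp
  rw [h6, zero_add]
  have h7 : ∑ i ∈ Finset.Ico n N, (inner ℂ ((tailOp h n x) i) (x i)).re
      = ∑ i ∈ Finset.Ico n N, (inner ℂ (yrec a w (Q n x) i) ((Q n x) i)).re
        + a n * ∑ i ∈ Finset.Ico n N, ‖(Q n x) i‖ ^ 2 := by
    rw [Finset.mul_sum, ← Finset.sum_add_distrib]
    refine Finset.sum_congr rfl (fun i hi => ?_)
    rw [Finset.mem_Ico] at hi
    have hni : ¬ i < n := by omega
    rw [tail_apply, if_neg hni, Q_apply, if_neg hni, inner_add_left, Complex.add_re]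
    congr 1
    have : inner ℂ ((a n : ℂ) * x i) (x i) = ((a n * ‖x i‖ ^ 2 : ℝ) : ℂ) := by
      rw [← smul_eq_mul, inner_smul_left, inner_self_eq_norm_sq_to_K]
      simp
    rw [this, Complex.ofReal_re]
  rw [h7]
  have h8 : ‖(0 : ℂ)‖ ^ 2 / (2 * a n) = 0 := by simp
  linarith

lemma tail_norm {a w : ℕ → ℝ} (h : Adm a w) (n : ℕ) : ‖tailOp h n‖ ≤ 2 := by
  have h1 := h.pos n
  have h2 := h.le_one n
  have h3 := Top_norm h
  have h4 := Q_norm n
  unfold tailOp
  calc ‖Q n * Top h * Q n + ((a n : ℝ) : ℂ) • Q n‖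
      ≤ ‖Q n‖ * ‖Top h‖ * ‖Q n‖ + a n * ‖Q n‖ := by
        refine le_trans (norm_add_le _ _) ?_
        have e1 : ‖((a n : ℝ) : ℂ) • Q n‖ = a n * ‖Q n‖ := by
          rw [norm_smul, Complex.norm_real, Real.norm_eq_abs, abs_of_pos h1]
        rw [e1]
        gcongr
        refine le_trans (norm_mul_le _ _) ?_
        gcongr
        exact norm_mul_le _ _
    _ ≤ 1 * 1 * 1 + 1 * 1 := by gcongr
    _ = 2 := by norm_num

lemma head_norm {a w : ℕ → ℝ} (h : Adm a w) (n : ℕ) : ‖headOp h n‖ ≤ 1 := by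
  have h3 := Top_norm h
  have h4 := P_norm n
  unfold headOp
  calc ‖P n * Top h * P n‖ ≤ ‖P n‖ * ‖Top h‖ * ‖P n‖ := by
        refine le_trans (norm_mul_le _ _) ?_
        gcongr
        exact norm_mul_le _ _
    _ ≤ 1 * 1 * 1 := by gcongr
    _ = 1 := by norm_num

lemma P_mul_Q (n : ℕ) : P n * Q n = 0 := by
  ext x i
  have : ((P n * Q n) x) i = (P n (Q n x)) i := rfl
  rw [this, P_apply, Q_apply]
  by_cases hi : i < n <;> simp [hi]

lemma Q_mul_P (n : ℕ) : Q n * P n = 0 := by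
  ext x i
  have : ((Q n * P n) x) i = (Q n (P n x)) i := rfl
  rw [this, Q_apply, P_apply]
  by_cases hi : i < n <;> simp [hi]

lemma head_mul_tail {a w : ℕ → ℝ} (h : Adm a w) (n : ℕ) {a' w' : ℕ → ℝ} (h' : Adm a' w') :
    headOp h' n * tailOp h n = 0 := by
  unfold headOp tailOp
  have e1 : P n * (Q n * Top h * Q n) = 0 := by
    rw [← mul_assoc, ← mul_assoc, P_mul_Q, zero_mul, zero_mul]
  rw [mul_assoc, mul_add, e1, mul_smul_comm, P_mul_Q, smul_zero, add_zero, mul_zero]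

lemma tail_mul_head {a w : ℕ → ℝ} (h : Adm a w) (n : ℕ) {a' w' : ℕ → ℝ} (h' : Adm a' w') :
    tailOp h n * headOp h' n = 0 := by
  unfold headOp tailOp
  have e1 : (Q n * Top h * Q n) * (P n * Top h' * P n) = 0 := by
    calc (Q n * Top h * Q n) * (P n * Top h' * P n)
        = (Q n * Top h) * (Q n * P n) * (Top h' * P n) := by simp only [mul_assoc]
      _ = 0 := by rw [Q_mul_P, mul_zero, zero_mul]
  have e2 : Q n * (P n * Top h' * P n) = 0 := by
    rw [← mul_assoc, ← mul_assoc, Q_mul_P, zero_mul, zero_mul]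
  rw [add_mul, e1, smul_mul_assoc, e2, smul_zero, add_zero]

/- distance of Top to head + tail at a cut -/
lemma cut_dist {a w : ℕ → ℝ} (h : Adm a w) (n : ℕ) (hw : w n = 0) :
    ‖Top h - (headOp h n + tailOp h n)‖ ≤ Real.sqrt (a n) + a n := by
  have hp := h.pos n
  refine ContinuousLinearMap.opNorm_le_bound _ (by positivity) (fun x => ?_)
  have e : (Top h - (headOp h n + tailOp h n)) x
      = Q n (Top h (P n x)) - ((a n : ℝ) : ℂ) • Q n x := by
    ext i
    have e1 : ((Top h - (headOp h n + tailOp h n)) x) i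
        = (Top h x) i - ((headOp h n x) i + (tailOp h n x) i) := rfl
    have e2 : (Q n (Top h (P n x)) - ((a n : ℝ) : ℂ) • Q n x) i
        = (Q n (Top h (P n x))) i - (a n : ℂ) * (Q n x) i := rfl
    rw [e1, e2, head_apply, tail_apply, Q_apply, Q_apply]
    have e3 : (Top h x) i = (Top h (P n x)) i + (Top h (Q n x)) i := by
      conv_lhs => rw [← P_add_Q n x, map_add]
      rfl
    rw [e3]
    split_ifs with hi
    · have : (Top h (Q n x)) i = 0 := by
        rw [Top_apply]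
        apply yrec_zero
        intro j hj
        rw [Q_apply, if_pos (by omega)]
      rw [this, Top_apply]; ring
    · rw [Top_apply, Top_apply]; ring
  rw [e]
  have h1 : ‖Q n (Top h (P n x))‖ ≤ Real.sqrt (a n) * ‖x‖ := by
    refine E_norm_le _ _ (by positivity) (fun N => ?_)
    have hy0 : ‖yrec a w (P n x) n‖ ^ 2 / a n ≤ a n * ‖x‖ ^ 2 := by
      rcases n with _ | m
      · simp only [yrec]
        have : (0 : ℝ) ≤ a 0 * ‖x‖ ^ 2 := by positivity
        simpa using this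
      · have e4 : yrec a w (P (m + 1) x) (m + 1) = (a (m + 1) : ℂ) * x m := by
          simp only [yrec]
          rw [hw, P_apply, if_pos (by omega)]
          simp
        rw [e4, norm_mul, Complex.norm_real, Real.norm_eq_abs, abs_of_pos hp, mul_pow]
        have e5 : a (m + 1) ^ 2 * ‖x m‖ ^ 2 / a (m + 1) = a (m + 1) * ‖x m‖ ^ 2 := by
          field_simp
        rw [e5]
        have e6 : ‖x m‖ ^ 2 ≤ ‖x‖ ^ 2 := by
          have := E_sum_le x {m}
          simpa using this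
        gcongr
    have hrhs : (Real.sqrt (a n) * ‖x‖) ^ 2 = a n * ‖x‖ ^ 2 := by
      rw [mul_pow, Real.sq_sqrt hp.le]
    rw [hrhs]
    rcases le_total N n with hN | hN
    · have : ∑ i ∈ Finset.range N, ‖(Q n (Top h (P n x))) i‖ ^ 2 = 0 := by
        apply Finset.sum_eq_zero
        intro i hi
        rw [Finset.mem_range] at hi
        rw [Q_apply, if_pos (by omega)]
        simp
      rw [this]; positivity
    · rw [← Finset.sum_range_add_sum_Ico _ hN]
      have e7 : ∑ i ∈ Finset.range n, ‖(Q n (Top h (P n x))) i‖ ^ 2 = 0 := by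
        apply Finset.sum_eq_zero
        intro i hi
        rw [Finset.mem_range] at hi
        rw [Q_apply, if_pos (by omega)]
        simp
      have e8 : ∑ i ∈ Finset.Ico n N, ‖(Q n (Top h (P n x))) i‖ ^ 2
          = ∑ i ∈ Finset.Ico n N, ‖yrec a w (P n x) i‖ ^ 2 := by
        refine Finset.sum_congr rfl (fun i hi => ?_)
        rw [Finset.mem_Ico] at hi
        rw [Q_apply, if_neg (by omega), Top_apply]
      have e9 : ∑ i ∈ Finset.Ico n N, ‖(P n x) i‖ ^ 2 = 0 := by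
        apply Finset.sum_eq_zero
        intro i hi
        rw [Finset.mem_Ico] at hi
        rw [P_apply, if_neg (by omega)]
        simp
      have h5 := sum_norm h (P n x) n N hN
      have h6 : (0 : ℝ) ≤ ‖yrec a w (P n x) N‖ ^ 2 / a N := by
        have := h.pos N
        positivity
      rw [e7, e8, zero_add]
      linarith
  have h2 : ‖((a n : ℝ) : ℂ) • Q n x‖ ≤ a n * ‖x‖ := by
    rw [norm_smul, Complex.norm_real, Real.norm_eq_abs, abs_of_pos hp]
    gcongr
    calc ‖Q n x‖ ≤ ‖Q n‖ * ‖x‖ := (Q n).le_opNorm x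
      _ ≤ 1 * ‖x‖ := by gcongr; exact Q_norm n
      _ = ‖x‖ := one_mul _
  calc ‖Q n (Top h (P n x)) - ((a n : ℝ) : ℂ) • Q n x‖
      ≤ ‖Q n (Top h (P n x))‖ + ‖((a n : ℝ) : ℂ) • Q n x‖ := norm_sub_le _ _
    _ ≤ (Real.sqrt (a n) + a n) * ‖x‖ := by rw [add_mul]; linarith

lemma head_congr {a w a' w' : ℕ → ℝ} (h : Adm a w) (h' : Adm a' w') {n : ℕ}
    (he : ∀ i < n, a i = a' i ∧ w i = w' i) : headOp h n = headOp h' n := by
  ext x i
  rw [head_apply, head_apply]
  split_ifs with hi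
  · exact yrec_congr he (fun _ _ => rfl) i hi
  · rfl

/- nilpotency of the head -/
lemma head_pow_zero {a w : ℕ → ℝ} (h : Adm a w) (n k : ℕ) (x : E) (i : ℕ) (hi : i < k) :
    ((headOp h n ^ k) x) i = 0 := by
  induction k generalizing i with
  | zero => omega
  | succ k ih =>
    have : ((headOp h n ^ (k + 1)) x) = headOp h n ((headOp h n ^ k) x) := by
      rw [pow_succ']; rfl
    rw [this, head_apply]
    split_ifs with hin
    · apply yrec_zero
      intro j hj
      rw [P_apply]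
      split_ifs
      · exact ih j (by omega)
      · rfl
    · rfl

lemma head_nilp {a w : ℕ → ℝ} (h : Adm a w) {n : ℕ} (hn : 1 ≤ n) : headOp h n ^ n = 0 := by
  ext x i
  by_cases hi : i < n
  · rw [head_pow_zero h n n x i hi]; rfl
  · obtain ⟨k, rfl⟩ : ∃ k, n = k + 1 := ⟨n - 1, by omega⟩
    have : ((headOp h (k + 1) ^ (k + 1)) x) = headOp h (k + 1) ((headOp h (k + 1) ^ k) x) := by
      rw [pow_succ']; rfl
    rw [this, head_apply, if_neg hi]; rfl

end Pool.Agent.Lib.MP_546dcb_an
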