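import Mathlib
import Pool.Agent.Lib.MP_546dcb_an.Op

open Polynomial Filter Topology

namespace Pool.Agent.Lib.MP_546dcb_an

noncomputable def e (l : ℕ) : E := lp.single 2 l (1 : ℂ)

lemma e_apply (l i : ℕ) : (e l) i = if i = l then 1 else 0 := by
  unfold e
  rw [lp.single_apply]
  by_cases h : i = l
  · subst h; simp
  · simp [h]

lemma head_pow_zero' {a w : ℕ → ℝ} (h : Adm a w) (n m k : ℕ) (x : E) (hx : ∀ i < m, x i = 0)
    (i : ℕ) (hi : i < m + k) :
    ((headOp h n ^ k) x) i = 0 := by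
  induction k generalizing i with
  | zero => simpa using hx i (by omega)
  | succ k ih =>
    have : ((headOp h n ^ (k + 1)) x) = headOp h n ((headOp h n ^ k) x) := by
      rw [pow_succ']; rfl
    rw [this, head_apply]
    split_ifs with hin
    · apply yrec_zero
      intro j hj
      rw [P_apply]
      split_ifs
      · exact ih j (by omega)
      · rfl
    · rfl

lemma aeval_head_coord {a w : ℕ → ℝ} (h : Adm a w) (n m : ℕ) (x : E) (hx : ∀ i < m, x i = 0)
    (p : ℂ[X]) : (aeval (headOp h n) p x) m = p.coeff 0 * x m := by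
  induction p using Polynomial.induction_on' with
  | add p q hp hq =>
    have : (aeval (headOp h n) (p + q) x) m
        = (aeval (headOp h n) p x) m + (aeval (headOp h n) q x) m := by
      rw [map_add]; rfl
    rw [this, hp, hq, coeff_add]; ring
  | monomial k c =>
    have : (aeval (headOp h n) (monomial k c) x) m = c * ((headOp h n ^ k) x) m := by
      rw [aeval_monomial, Algebra.algebraMap_eq_smul_one, smul_mul_assoc, one_mul]; rfl
    rw [this]
    rcases k with _ | k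
    · simp
    · rw [head_pow_zero' h n m (k + 1) x hx m (by omega), coeff_monomial]; simp

lemma head_Q {a w : ℕ → ℝ} (h : Adm a w) (n : ℕ) (x : E) : headOp h n (Q n x) = 0 := by
  ext i
  rw [head_apply]
  split_ifs with hi
  · apply yrec_zero
    intro j hj
    rw [P_apply, Q_apply]
    by_cases hjn : j < n <;> simp [hjn]
  · rfl

lemma aeval_head_Q {a w : ℕ → ℝ} (h : Adm a w) (n : ℕ) (x : E) (p : ℂ[X]) :
    aeval (headOp h n) p (Q n x) = p.coeff 0 • Q n x := by
  induction p using Polynomial.induction_on' with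
  | add p q hp hq =>
    have : aeval (headOp h n) (p + q) (Q n x)
        = aeval (headOp h n) p (Q n x) + aeval (headOp h n) q (Q n x) := by
      rw [map_add]; rfl
    rw [this, hp, hq, coeff_add, add_smul]
  | monomial k c =>
    have : aeval (headOp h n) (monomial k c) (Q n x) = c • ((headOp h n ^ k) (Q n x)) := by
      rw [aeval_monomial, Algebra.algebraMap_eq_smul_one, smul_mul_assoc, one_mul]; rfl
    rw [this]
    rcases k with _ | k
    · simp
    · have : (headOp h n ^ (k + 1)) (Q n x) = (headOp h n ^ k) (headOp h n (Q n x)) := by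
        rw [pow_succ]; rfl
      rw [this, head_Q, map_zero, smul_zero, coeff_monomial]; simp

lemma finite_sum_repr (z : E) (m n : ℕ) (h1 : ∀ i < m, z i = 0) (h2 : ∀ i, n ≤ i → z i = 0) :
    z = ∑ i ∈ Finset.Ico m n, z i • e i := by
  ext k
  have : (∑ i ∈ Finset.Ico m n, z i • e i : E) k = ∑ i ∈ Finset.Ico m n, z i * (e i) k := by
    rw [lp.coeFn_sum, Finset.sum_apply]
    rfl
  rw [this]
  simp only [e_apply, mul_ite, mul_one, mul_zero]
  rw [Finset.sum_ite_eq]
  split_ifs with hk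
  · rfl
  · rw [Finset.mem_Ico] at hk
    by_cases hkm : k < m
    · exact h1 k hkm
    · exact h2 k (by omega)

lemma basis_mem {a w : ℕ → ℝ} (h : Adm a w) (n : ℕ) (C : Submodule ℂ E)
    (hC : ∀ z ∈ C, headOp h n z ∈ C) (k : ℕ) :
    ∀ m, m + k = n → ∀ z ∈ C, (∀ i < m, z i = 0) → (∀ i, n ≤ i → z i = 0) → z m ≠ 0 →
      ∀ l, m ≤ l → l < n → e l ∈ C := by
  induction k with
  | zero => intro m hm z _ _ _ _ l h1 h2; omega
  | succ k ih =>
    intro m hm z hz h1 h2 hzm
    have hrest : ∀ l, m + 1 ≤ l → l < n → e l ∈ C := by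
      intro l hl1 hl2
      refine ih (m + 1) (by omega) (headOp h n z) (hC z hz) ?_ ?_ ?_ l hl1 hl2
      · intro i hi
        rw [head_apply]
        split_ifs
        · apply yrec_zero
          intro j hj
          rw [P_apply]
          split_ifs
          · exact h1 j (by omega)
          · rfl
        · rfl
      · intro i hi
        rw [head_apply, if_neg (by omega)]
      · rw [head_apply, if_pos (by omega), yrec_first]
        · rw [P_apply, if_pos (by omega)]
          have := h.pos (m + 1)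
          exact mul_ne_zero (Complex.ofReal_ne_zero.mpr this.ne') hzm
        · intro j hj
          rw [P_apply]
          split_ifs
          · exact h1 j hj
          · rfl
    intro l hl1 hl2
    rcases Nat.lt_or_ge m l with hml | hml
    · exact hrest l hml hl2
    · have hlm : l = m := by omega
      subst hlm
      have hrep := finite_sum_repr z l n h1 h2
      rw [Finset.sum_eq_sum_Ico_succ_bot (by omega)] at hrep
      have h3 : z l • e l = z - ∑ i ∈ Finset.Ico (l + 1) n, z i • e i := by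
        rw [eq_sub_iff_add_eq]; exact hrep.symm
      have h4 : z l • e l ∈ C := by
        rw [h3]
        refine C.sub_mem hz (C.sum_mem (fun i hi => C.smul_mem _ (hrest i ?_ ?_)))
        · rw [Finset.mem_Ico] at hi; exact hi.1
        · rw [Finset.mem_Ico] at hi; exact hi.2
      have h5 := C.smul_mem (z l)⁻¹ h4
      rwa [smul_smul, inv_mul_cancel₀ hzm, one_smul] at h5

lemma exists_exact {a w : ℕ → ℝ} (h : Adm a w) (n m : ℕ) (z : E)
    (h1 : ∀ i < m, z i = 0) (h2 : ∀ i, n ≤ i → z i = 0) (hzm : z m ≠ 0) (l : ℕ) (hml : m ≤ l)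
    (hln : l < n) : ∃ p : ℂ[X], aeval (headOp h n) p z = e l := by
  let φ : ℂ[X] →ₗ[ℂ] E :=
    { toFun := fun p => aeval (headOp h n) p z
      map_add' := fun p q => by rw [map_add]; rfl
      map_smul' := fun c p => by rw [map_smul]; rfl }
  have := basis_mem h n (LinearMap.range φ) (by
    rintro _ ⟨p, rfl⟩
    refine ⟨X * p, ?_⟩
    show aeval (headOp h n) (X * p) z = headOp h n (aeval (headOp h n) p z)
    rw [map_mul, aeval_X]; rfl) (n - m) m (by omega) z ⟨1, by
      show aeval (headOp h n) (1 : ℂ[X]) z = z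
      rw [map_one]; rfl⟩ h1 h2 hzm l hml hln
  obtain ⟨p, hp⟩ := this
  exact ⟨p, hp⟩

/- compactness -/
noncomputable def emb (n : ℕ) (v : Fin n → ℂ) : E := ∑ i : Fin n, v i • e i

lemma emb_cont (n : ℕ) : Continuous (emb n) := by
  unfold emb
  fun_prop

lemma emb_apply (n : ℕ) (v : Fin n → ℂ) (k : ℕ) :
    (emb n v) k = if hk : k < n then v ⟨k, hk⟩ else 0 := by
  unfold emb
  have : (∑ i : Fin n, v i • e i : E) k = ∑ i : Fin n, v i * (e i) k := by
    rw [lp.coeFn_sum, Finset.sum_apply]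
    rfl
  rw [this]
  simp only [e_apply, mul_ite, mul_one, mul_zero]
  split_ifs with hk
  · rw [Finset.sum_eq_single ⟨k, hk⟩]
    · simp
    · intro b _ hb
      rw [if_neg]
      intro hkb
      exact hb (Fin.ext hkb.symm)
    · intro hb; exact absurd (Finset.mem_univ _) hb
  · apply Finset.sum_eq_zero
    intro i _
    rw [if_neg]
    intro hki
    exact hk (hki ▸ i.2)

lemma coord_le (x : E) (i : ℕ) : ‖x i‖ ≤ ‖x‖ := by
  have h := E_sum_le x {i}
  rw [Finset.sum_singleton] at h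
  exact le_of_sq_le_sq h (norm_nonneg _)

lemma finite_cover {a w : ℕ → ℝ} (h : Adm a w) (n m l : ℕ) (hml : m ≤ l) (hln : l < n)
    (R ε : ℝ) (hR : 0 < R) (hε : 0 < ε) :
    ∃ F : Finset ℂ[X], ∀ x : E, (∀ i < m, x i = 0) → ‖x‖ ≤ R → 1 / R ≤ ‖x m‖ →
      ∃ p ∈ F, ‖aeval (headOp h n) p (P n x) - e l‖ < ε := by
  have hmn : m < n := by omega
  let K : Set (Fin n → ℂ) :=
    Metric.closedBall 0 R ∩ ({v | ∀ i : Fin n, (i : ℕ) < m → v i = 0} ∩ {v | 1 / R ≤ ‖v ⟨m, hmn⟩‖})
  have hK : IsCompact K := by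
    refine (isCompact_closedBall _ _).inter_right (IsClosed.inter ?_ ?_)
    · have : {v : Fin n → ℂ | ∀ i : Fin n, (i : ℕ) < m → v i = 0}
          = ⋂ (i : Fin n) (_ : (i : ℕ) < m), {v | v i = 0} := by
        ext v; simp
      rw [this]
      exact isClosed_iInter (fun i => isClosed_iInter (fun _ =>
        isClosed_eq (continuous_apply i) continuous_const))
    · exact isClosed_le continuous_const (continuous_norm.comp (continuous_apply _))
  let U : ℂ[X] → Set (Fin n → ℂ) := fun p => {v | ‖aeval (headOp h n) p (emb n v) - e l‖ < ε}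
  have hU : ∀ p, IsOpen (U p) := by
    intro p
    refine isOpen_lt (continuous_norm.comp ?_) continuous_const
    exact ((aeval (headOp h n) p).continuous.comp (emb_cont n)).sub continuous_const
  have hcov : K ⊆ ⋃ p, U p := by
    intro v hv
    obtain ⟨_, hv2, hv3⟩ := hv
    obtain ⟨p, hp⟩ := exists_exact h n m (emb n v) (by
        intro i hi
        rw [emb_apply]
        split_ifs with hin
        · exact hv2 ⟨i, hin⟩ hi
        · rfl) (by
        intro i hi
        rw [emb_apply, dif_neg (by omega)]) (by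
        rw [emb_apply, dif_pos hmn]
        intro h0
        rw [Set.mem_ofPred_eq, h0, norm_zero] at hv3
        have : 0 < 1 / R := by positivity
        linarith) l hml hln
    rw [Set.mem_iUnion]
    refine ⟨p, ?_⟩
    show ‖aeval (headOp h n) p (emb n v) - e l‖ < ε
    rw [hp, sub_self, norm_zero]
    exact hε
  obtain ⟨F, hF⟩ := hK.elim_finite_subcover U hU hcov
  refine ⟨F, fun x hx1 hx2 hx3 => ?_⟩
  have hmem : (fun i : Fin n => x i) ∈ K := by
    refine ⟨?_, ?_, ?_⟩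
    · rw [mem_closedBall_zero_iff, pi_norm_le_iff_of_nonneg hR.le]
      intro i
      exact (coord_le x i).trans hx2
    · intro i hi
      exact hx1 i hi
    · exact hx3
  have hemb : emb n (fun i : Fin n => x i) = P n x := by
    ext k
    rw [emb_apply, P_apply]
    split_ifs <;> rfl
  have := hF hmem
  rw [Set.mem_iUnion₂] at this
  obtain ⟨p, hp, hv⟩ := this
  refine ⟨p, hp, ?_⟩
  have hv' : ‖aeval (headOp h n) p (emb n (fun i : Fin n => x i)) - e l‖ < ε := hv
  rwa [hemb] at hv'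

def Star (T : E →L[ℂ] E) (n j : ℕ) : Prop :=
  ∀ m l, m ≤ l → l < n → ∀ x : E, (∀ i < m, x i = 0) → ‖x‖ ≤ (j + 1 : ℝ) →
    1 / (j + 1 : ℝ) ≤ ‖x m‖ →
    ∃ p : ℂ[X], ‖aeval T p x - e l‖ ≤ 2 / (j + 1 : ℝ) + 2 / ‖x m‖ * ‖Q n x‖

lemma finite_approx {n : ℕ} (hn1 : 1 ≤ n) (A : E →L[ℂ] E) (hA : A ^ n = 0) (F : Finset ℂ[X])
    (ε : ℝ) (hε : 0 < ε) :
    ∃ δ : ℝ, 0 < δ ∧ ∀ p ∈ F, ∃ q : ℂ[X], ∀ T B : E →L[ℂ] E, Acc B → ‖B‖ ≤ 2 → A * B = 0 →
      B * A = 0 → ‖T‖ ≤ 3 → ‖A + B‖ ≤ 3 → ‖T - (A + B)‖ ≤ δ → ‖aeval T q - aeval A p‖ ≤ ε := by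
  classical
  induction F using Finset.induction_on with
  | empty => exact ⟨1, one_pos, fun p hp => absurd hp (Finset.notMem_empty _)⟩
  | insert p F _ ih =>
    obtain ⟨δ, hδ, hF⟩ := ih
    obtain ⟨q, δ', hδ', hq⟩ := approx_nilpotent hn1 A hA p ε hε
    refine ⟨min δ δ', lt_min hδ hδ', fun p' hp' => ?_⟩
    rcases Finset.mem_insert.mp hp' with rfl | hp'
    · exact ⟨q, fun T B h1 h2 h3 h4 h5 h6 h7 => hq T B h1 h2 h3 h4 h5 h6
        (h7.trans (min_le_right _ _))⟩
    · obtain ⟨q', hq'⟩ := hF p' hp'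
      exact ⟨q', fun T B h1 h2 h3 h4 h5 h6 h7 => hq' T B h1 h2 h3 h4 h5 h6
        (h7.trans (min_le_left _ _))⟩

lemma one_pair {a w : ℕ → ℝ} (h : Adm a w) (n : ℕ) (hn : 1 ≤ n) (j m l : ℕ) (hml : m ≤ l)
    (hln : l < n) :
    ∃ δ : ℝ, 0 < δ ∧ ∀ (a' w' : ℕ → ℝ) (h' : Adm a' w'), (∀ i < n, a i = a' i ∧ w i = w' i) →
      w' n = 0 → Real.sqrt (a' n) + a' n ≤ δ → ∀ x : E, (∀ i < m, x i = 0) → ‖x‖ ≤ (j + 1 : ℝ) →
      1 / (j + 1 : ℝ) ≤ ‖x m‖ →
      ∃ p : ℂ[X], ‖aeval (Top h') p x - e l‖ ≤ 2 / (j + 1 : ℝ) + 2 / ‖x m‖ * ‖Q n x‖ := by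
  have hj : (0 : ℝ) < j + 1 := by positivity
  obtain ⟨F, hF⟩ := finite_cover h n m l hml hln (j + 1) (1 / (j + 1)) hj (by positivity)
  obtain ⟨δ, hδ, hq⟩ := finite_approx hn (headOp h n) (head_nilp h hn) F (1 / (j + 1) ^ 2)
    (by positivity)
  refine ⟨δ, hδ, fun a' w' h' hag hw' hcut x hx1 hx2 hx3 => ?_⟩
  obtain ⟨p, hpF, hp⟩ := hF x hx1 hx2 hx3
  obtain ⟨q, hq⟩ := hq p hpF
  have hhead : headOp h n = headOp h' n := head_congr h h' hag
  have hxm : 0 < ‖x m‖ := lt_of_lt_of_le (by positivity) hx3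
  have h1 : ‖aeval (Top h') q - aeval (headOp h n) p‖ ≤ 1 / (j + 1 : ℝ) ^ 2 := by
    refine hq (Top h') (tailOp h' n) (tail_acc h' n) (tail_norm h' n) (head_mul_tail h' n h)
      (tail_mul_head h' n h) ((Top_norm h').trans (by norm_num)) ?_ ?_
    · calc ‖headOp h n + tailOp h' n‖ ≤ ‖headOp h n‖ + ‖tailOp h' n‖ := norm_add_le _ _
        _ ≤ 1 + 2 := add_le_add (head_norm h n) (tail_norm h' n)
        _ = 3 := by norm_num
    · rw [hhead]
      exact (cut_dist h' n hw').trans hcut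
  refine ⟨q, ?_⟩
  have h2 : aeval (Top h') q x - e l
      = (aeval (Top h') q - aeval (headOp h n) p) x
        + (aeval (headOp h n) p (P n x) - e l) + p.coeff 0 • Q n x := by
    have e1 : aeval (headOp h n) p x
        = aeval (headOp h n) p (P n x) + p.coeff 0 • Q n x := by
      rw [← aeval_head_Q h n x p, ← map_add, P_add_Q]
    have e2 : (aeval (Top h') q - aeval (headOp h n) p) x
        = aeval (Top h') q x - aeval (headOp h n) p x := rfl
    rw [e2, e1]; abel
  have h3 : ‖p.coeff 0‖ ≤ 2 / ‖x m‖ := by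
    rw [le_div_iff₀ hxm]
    have e3 : (aeval (headOp h n) p (P n x) - e l) m = p.coeff 0 * x m - (e l) m := by
      have : (aeval (headOp h n) p (P n x) - e l) m = (aeval (headOp h n) p (P n x)) m - (e l) m :=
        rfl
      rw [this, aeval_head_coord h n m (P n x), P_apply, if_pos (by omega)]
      intro i hi
      rw [P_apply, if_pos (by omega)]
      exact hx1 i hi
    have e4 := coord_le (aeval (headOp h n) p (P n x) - e l) m
    rw [e3] at e4
    have e5 : ‖(e l) m‖ ≤ 1 := by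
      rw [e_apply]; split_ifs <;> simp
    have e6 : 1 / (j + 1 : ℝ) ≤ 1 := by
      rw [div_le_one hj]
      have : (0 : ℝ) ≤ j := by positivity
      linarith
    calc ‖p.coeff 0‖ * ‖x m‖ = ‖(p.coeff 0 * x m - (e l) m) + (e l) m‖ := by
          rw [sub_add_cancel, norm_mul]
      _ ≤ ‖p.coeff 0 * x m - (e l) m‖ + ‖(e l) m‖ := norm_add_le _ _
      _ ≤ 1 + 1 := by linarith
      _ = 2 := by norm_num
  rw [h2]
  have h4 : ‖(aeval (Top h') q - aeval (headOp h n) p) x‖ ≤ 1 / (j + 1 : ℝ) := by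
    calc ‖(aeval (Top h') q - aeval (headOp h n) p) x‖
        ≤ ‖aeval (Top h') q - aeval (headOp h n) p‖ * ‖x‖ := ContinuousLinearMap.le_opNorm _ _
      _ ≤ 1 / (j + 1 : ℝ) ^ 2 * (j + 1) := by gcongr
      _ = 1 / (j + 1 : ℝ) := by field_simp
  have h5 : ‖p.coeff 0 • Q n x‖ ≤ 2 / ‖x m‖ * ‖Q n x‖ := by
    rw [norm_smul]; gcongr
  calc ‖(aeval (Top h') q - aeval (headOp h n) p) x
        + (aeval (headOp h n) p (P n x) - e l) + p.coeff 0 • Q n x‖
      ≤ ‖(aeval (Top h') q - aeval (headOp h n) p) x‖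
        + ‖aeval (headOp h n) p (P n x) - e l‖ + ‖p.coeff 0 • Q n x‖ := norm_add₃_le
    _ ≤ 1 / (j + 1 : ℝ) + 1 / (j + 1 : ℝ) + 2 / ‖x m‖ * ‖Q n x‖ := by
        gcongr
    _ = 2 / (j + 1 : ℝ) + 2 / ‖x m‖ * ‖Q n x‖ := by ring

lemma main_step {a w : ℕ → ℝ} (h : Adm a w) (n : ℕ) (hn : 1 ≤ n) (j : ℕ) :
    ∃ δ : ℝ, 0 < δ ∧ ∀ (a' w' : ℕ → ℝ) (h' : Adm a' w'), (∀ i < n, a i = a' i ∧ w i = w' i) →
      w' n = 0 → Real.sqrt (a' n) + a' n ≤ δ → Star (Top h') n j := by
  have key : ∀ F : Finset (ℕ × ℕ), (∀ r ∈ F, r.1 ≤ r.2 ∧ r.2 < n) →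
      ∃ δ : ℝ, 0 < δ ∧ ∀ (a' w' : ℕ → ℝ) (h' : Adm a' w'), (∀ i < n, a i = a' i ∧ w i = w' i) →
      w' n = 0 → Real.sqrt (a' n) + a' n ≤ δ → ∀ r ∈ F, ∀ x : E, (∀ i < r.1, x i = 0) →
      ‖x‖ ≤ (j + 1 : ℝ) → 1 / (j + 1 : ℝ) ≤ ‖x r.1‖ →
      ∃ p : ℂ[X], ‖aeval (Top h') p x - e r.2‖ ≤ 2 / (j + 1 : ℝ) + 2 / ‖x r.1‖ * ‖Q n x‖ := by
    classical
    intro F
    induction F using Finset.induction_on with
    | empty => exact fun _ => ⟨1, one_pos, fun _ _ _ _ _ _ r hr => absurd hr (Finset.notMem_empty _)⟩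
    | insert r F _ ih =>
      intro hF
      obtain ⟨δ, hδ, h1⟩ := ih (fun r' hr' => hF r' (Finset.mem_insert_of_mem hr'))
      have hr := hF r (Finset.mem_insert_self _ _)
      obtain ⟨δ', hδ', h2⟩ := one_pair h n hn j r.1 r.2 hr.1 hr.2
      refine ⟨min δ δ', lt_min hδ hδ', fun a' w' h' hag hw hle r' hr' => ?_⟩
      rcases Finset.mem_insert.mp hr' with rfl | hr'
      · exact h2 a' w' h' hag hw (hle.trans (min_le_right _ _))
      · exact h1 a' w' h' hag hw (hle.trans (min_le_left _ _)) r' hr'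
  obtain ⟨δ, hδ, h1⟩ := key ((Finset.range n ×ˢ Finset.range n).filter (fun r => r.1 ≤ r.2))
    (fun r hr => by
      rw [Finset.mem_filter, Finset.mem_product, Finset.mem_range, Finset.mem_range] at hr
      exact ⟨hr.2, hr.1.2⟩)
  refine ⟨δ, hδ, fun a' w' h' hag hw hle m l hml hln x hx1 hx2 hx3 => ?_⟩
  exact h1 a' w' h' hag hw hle (m, l) (by
    rw [Finset.mem_filter, Finset.mem_product, Finset.mem_range, Finset.mem_range]
    exact ⟨⟨by omega, hln⟩, hml⟩) x hx1 hx2 hx3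

end Pool.Agent.Lib.MP_546dcb_an
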