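import Mathlib
import Pool.Agent.Lib.MP_546dcb_an.Star

open Polynomial Filter Topology

namespace Pool.Agent.Lib.MP_546dcb_an

structure Stage where
  a : ℕ → ℝ
  w : ℕ → ℝ
  n : ℕ
  h : Adm a w
  hn : 1 ≤ n

lemma exists_small_param (δ b : ℝ) (hδ : 0 < δ) (hb : 0 < b) :
    ∃ s : ℝ, 0 < s ∧ s ≤ 1 ∧ s ≤ b ∧ Real.sqrt s + s ≤ δ := by
  refine ⟨min b (min 1 ((δ / 2) ^ 2)), by positivity, ?_, min_le_left _ _, ?_⟩
  · exact (min_le_right _ _).trans (min_le_left _ _)
  · set s := min b (min 1 ((δ / 2) ^ 2)) with hs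
    have hs0 : 0 < s := by positivity
    have hs1 : s ≤ 1 := (min_le_right _ _).trans (min_le_left _ _)
    have hs2 : s ≤ (δ / 2) ^ 2 := (min_le_right _ _).trans (min_le_right _ _)
    have h1 : Real.sqrt s ≤ δ / 2 := by
      rw [Real.sqrt_le_left (by positivity)]; exact hs2
    have h2 : s ≤ Real.sqrt s := by
      apply Real.le_sqrt_of_sq_le
      nlinarith
    linarith

lemma step_exists (S : Stage) (j : ℕ) : ∃ (S' : Stage) (s : ℝ) (K : ℕ),
    0 < s ∧ ((j + 1 : ℝ) / s) ^ 2 ≤ K ∧ 1 ≤ K ∧ S'.n = S.n + K + 2 ∧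
    (∀ i < S.n, S.a i = S'.a i ∧ S.w i = S'.w i) ∧ S'.w S.n = 0 ∧ (∀ i, S.n ≤ i → S'.a i = s) ∧
    (∀ i, S.n < i → S'.w i = 1 - s) ∧
    (∀ (a' w' : ℕ → ℝ) (h' : Adm a' w'), (∀ i < S.n, S.a i = a' i ∧ S.w i = w' i) →
      w' S.n = 0 → a' S.n = s → Star (Top h') S.n j) := by
  obtain ⟨δ, hδ, hstar⟩ := main_step S.h S.n S.hn j
  obtain ⟨s, hs0, hs1, hsb, hsδ⟩ := exists_small_param δ (S.a (S.n - 1)) hδ (S.h.pos _)
  obtain ⟨K, hK⟩ := exists_nat_ge (((j + 1 : ℝ) / s) ^ 2)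
  have hadm : Adm (fun i => if i < S.n then S.a i else s)
      (fun i => if i < S.n then S.w i else if i = S.n then 0 else 1 - s) := by
    refine ⟨fun i => ?_, fun i => ?_, fun i => ?_, fun i => ?_⟩
    · split_ifs
      · exact S.h.pos i
      · exact hs0
    · split_ifs
      · exact S.h.le_one i
      · exact hs1
    · split_ifs with h1 h2 h2
      · exact S.h.anti i
      · omega
      · have : i = S.n - 1 := by omega
        rw [this]; exact hsb
      · exact le_refl _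
    · by_cases h1 : i + 1 < S.n
      · rw [if_pos h1, if_pos h1, if_pos (by omega)]
        exact S.h.step i
      · by_cases h2 : i + 1 = S.n
        · left; rw [if_neg h1, if_pos h2]
        · right; rw [if_neg h1, if_neg h2, if_neg h1, if_neg (by omega)]
          exact ⟨rfl, rfl⟩
  refine ⟨⟨_, _, S.n + (K + 1) + 2, hadm, by omega⟩, s, K + 1, hs0, ?_, by omega, rfl, ?_, ?_, ?_, ?_, ?_⟩
  · push_cast; linarith
  · intro i hi
    dsimp only
    rw [if_pos hi, if_pos hi]; exact ⟨rfl, rfl⟩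
  · dsimp only
    rw [if_neg (lt_irrefl _), if_pos rfl]
  · intro i hi
    dsimp only
    rw [if_neg (by omega)]
  · intro i hi
    dsimp only
    rw [if_neg (by omega), if_neg (by omega)]
  · intro a' w' h' hag hw ha
    exact hstar a' w' h' hag hw (by rw [ha]; exact hsδ)

noncomputable def nxt (S : Stage) (j : ℕ) : Stage := (step_exists S j).choose

noncomputable def St : ℕ → Stage
  | 0 => ⟨fun _ => 1, fun _ => 0, 1, ⟨fun _ => one_pos, fun _ => le_refl _, fun _ => le_refl _,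
      fun _ => Or.inl rfl⟩, le_refl _⟩
  | (j + 1) => nxt (St j) j

lemma St_spec (j : ℕ) : ∃ (s : ℝ) (K : ℕ),
    0 < s ∧ ((j + 1 : ℝ) / s) ^ 2 ≤ K ∧ 1 ≤ K ∧ (St (j + 1)).n = (St j).n + K + 2 ∧
    (∀ i < (St j).n, (St j).a i = (St (j + 1)).a i ∧ (St j).w i = (St (j + 1)).w i) ∧
    (St (j + 1)).w (St j).n = 0 ∧ (∀ i, (St j).n ≤ i → (St (j + 1)).a i = s) ∧
    (∀ i, (St j).n < i → (St (j + 1)).w i = 1 - s) ∧
    (∀ (a' w' : ℕ → ℝ) (h' : Adm a' w'), (∀ i < (St j).n, (St j).a i = a' i ∧ (St j).w i = w' i) →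
      w' (St j).n = 0 → a' (St j).n = s → Star (Top h') (St j).n j) :=
  (step_exists (St j) j).choose_spec

lemma St_n_lt (j : ℕ) : (St j).n < (St (j + 1)).n := by
  obtain ⟨s, K, _, _, _, h, _⟩ := St_spec j
  omega

lemma lt_St_n (j : ℕ) : j < (St j).n := by
  induction j with
  | zero => exact (St 0).hn
  | succ j ih => have := St_n_lt j; omega

lemma St_n_mono {j k : ℕ} (h : j ≤ k) : (St j).n ≤ (St k).n := by
  induction k, h using Nat.le_induction with
  | base => exact le_refl _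
  | succ k _ ih => exact ih.trans (St_n_lt k).le

lemma St_agree {j k : ℕ} (h : j ≤ k) {i : ℕ} (hi : i < (St j).n) :
    (St j).a i = (St k).a i ∧ (St j).w i = (St k).w i := by
  induction k, h using Nat.le_induction with
  | base => exact ⟨rfl, rfl⟩
  | succ k hk ih =>
    obtain ⟨s, K, _, _, _, _, h5, _⟩ := St_spec k
    have := h5 i (lt_of_lt_of_le hi (St_n_mono hk))
    exact ⟨ih.1.trans this.1, ih.2.trans this.2⟩

noncomputable def fa (i : ℕ) : ℝ := (St i).a i
noncomputable def fw (i : ℕ) : ℝ := (St i).w i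

lemma f_eq {j i : ℕ} (hi : i < (St j).n) : (St j).a i = fa i ∧ (St j).w i = fw i := by
  rcases le_total i j with h | h
  · have := St_agree h (lt_St_n i)
    exact ⟨this.1.symm, this.2.symm⟩
  · exact St_agree h hi

lemma f_adm : Adm fa fw := by
  refine ⟨fun i => (St i).h.pos i, fun i => (St i).h.le_one i, fun i => ?_, fun i => ?_⟩
  · have h1 := f_eq (lt_St_n (i + 1))
    have h2 := f_eq (show i < (St (i + 1)).n by have := lt_St_n (i + 1); omega)
    rw [← h1.1, ← h2.1]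
    exact (St (i + 1)).h.anti i
  · have h1 := f_eq (lt_St_n (i + 1))
    have h2 := f_eq (show i < (St (i + 1)).n by have := lt_St_n (i + 1); omega)
    rw [← h1.1, ← h1.2, ← h2.1]
    exact (St (i + 1)).h.step i

noncomputable def T : E →L[ℂ] E := Top f_adm

lemma T_star (j : ℕ) : Star T (St j).n j := by
  obtain ⟨s, K, _, _, _, _, _, h6, h7, _, h9⟩ := St_spec j
  have hlt := St_n_lt j
  refine h9 fa fw f_adm (fun i hi => f_eq hi) ?_ ?_
  · rw [← (f_eq hlt).2]; exact h6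
  · rw [← (f_eq hlt).1]; exact h7 _ (le_refl _)

/- blocks -/
lemma block (j : ℕ) : ∃ (s : ℝ) (K : ℕ), 0 < s ∧ ((j + 1 : ℝ) / s) ^ 2 ≤ K ∧ 1 ≤ K ∧
    ∀ i, (St j).n < i → i ≤ (St j).n + K + 1 → fa i = s ∧ fw i = 1 - s := by
  obtain ⟨s, K, h1, h2, h3, h4, _, _, h7, h8, _⟩ := St_spec j
  refine ⟨s, K, h1, h2, h3, fun i hi1 hi2 => ?_⟩
  have := f_eq (show i < (St (j + 1)).n by omega)
  rw [← this.1, ← this.2]
  exact ⟨h7 i (by omega), h8 i hi1⟩

/- the vectors e l are in every closed invariant subspace containing a vector of order m ≤ l -/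
lemma Q_tendsto (x : E) : Tendsto (fun n => ‖Q n x‖) atTop (𝓝 0) := by
  have h1 : ∀ n, ‖Q n x‖ ^ 2 = ‖x‖ ^ 2 - ∑ i ∈ Finset.range n, ‖x i‖ ^ 2 := by
    intro n
    have h2 := E_hasSum (Q n x)
    have h3 : HasSum (fun i => ‖x i‖ ^ 2 - ‖(P n x) i‖ ^ 2) (‖x‖ ^ 2 - ‖P n x‖ ^ 2) :=
      (E_hasSum x).sub (E_hasSum (P n x))
    have h4 : ‖P n x‖ ^ 2 = ∑ i ∈ Finset.range n, ‖x i‖ ^ 2 := by
      refine (E_hasSum (P n x)).unique ?_
      have h5 : HasSum (fun i => ‖(P n x) i‖ ^ 2) (∑ i ∈ Finset.range n, ‖(P n x) i‖ ^ 2) :=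
        hasSum_sum_of_ne_finset_zero (fun i hi => by
          rw [Finset.mem_range] at hi
          rw [P_apply, if_neg hi]; simp)
      convert h5 using 1
      refine Finset.sum_congr rfl (fun i hi => ?_)
      rw [Finset.mem_range] at hi
      rw [P_apply, if_pos hi]
    rw [← h4]
    refine h2.unique ?_
    convert h3 using 1
    funext i
    rw [Q_apply, P_apply]
    split_ifs <;> simp
  have h2 : Tendsto (fun n => ‖Q n x‖ ^ 2) atTop (𝓝 0) := by
    have := (E_hasSum x).tendsto_sum_nat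
    have h3 : Tendsto (fun n => ‖x‖ ^ 2 - ∑ i ∈ Finset.range n, ‖x i‖ ^ 2) atTop
        (𝓝 (‖x‖ ^ 2 - ‖x‖ ^ 2)) := tendsto_const_nhds.sub this
    rw [sub_self] at h3
    exact h3.congr (fun n => (h1 n).symm)
  have h3 := h2.sqrt
  rw [Real.sqrt_zero] at h3
  exact h3.congr (fun n => Real.sqrt_sq (norm_nonneg _))

lemma aeval_mem {M : Submodule ℂ E} (hM : ∀ x ∈ M, T x ∈ M) (p : ℂ[X]) {x : E} (hx : x ∈ M) :
    aeval T p x ∈ M := by
  have hpow : ∀ k : ℕ, (T ^ k) x ∈ M := by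
    intro k
    induction k with
    | zero => simpa using hx
    | succ k ih =>
      have : (T ^ (k + 1)) x = T ((T ^ k) x) := by rw [pow_succ']; rfl
      rw [this]; exact hM _ ih
  induction p using Polynomial.induction_on' with
  | add p q hp hq =>
    have : aeval T (p + q) x = aeval T p x + aeval T q x := by rw [map_add]; rfl
    rw [this]; exact M.add_mem hp hq
  | monomial k c =>
    have : aeval T (monomial k c) x = c • ((T ^ k) x) := by
      rw [aeval_monomial, Algebra.algebraMap_eq_smul_one, smul_mul_assoc, one_mul]; rfl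
    rw [this]; exact M.smul_mem _ (hpow k)

lemma e_mem {M : Submodule ℂ E} (hc : IsClosed (M : Set E)) (hM : ∀ x ∈ M, T x ∈ M) {x : E}
    (hx : x ∈ M) {m : ℕ} (h0 : ∀ i < m, x i = 0) (hm : x m ≠ 0) {l : ℕ} (hl : m ≤ l) : e l ∈ M := by
  have hxm : 0 < ‖x m‖ := norm_pos_iff.mpr hm
  have hlim : Tendsto (fun j : ℕ => 2 / (j + 1 : ℝ) + 2 / ‖x m‖ * ‖Q (St j).n x‖) atTop (𝓝 0) := by
    have h1 : Tendsto (fun j : ℕ => 2 / (j + 1 : ℝ)) atTop (𝓝 0) := by
      have := (tendsto_one_div_add_atTop_nhds_zero_nat (𝕜 := ℝ)).const_mul 2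
      rw [mul_zero] at this
      refine this.congr (fun j => ?_)
      ring
    have h2 : Tendsto (fun j : ℕ => (St j).n) atTop atTop :=
      tendsto_atTop_mono (fun j => (lt_St_n j).le) tendsto_id
    have h3 := ((Q_tendsto x).comp h2).const_mul (2 / ‖x m‖)
    rw [mul_zero] at h3
    have := h1.add h3
    rw [add_zero] at this
    exact this
  have hcl : e l ∈ closure (M : Set E) := by
    rw [Metric.mem_closure_iff]
    intro ε hε
    have h1 : ∀ᶠ j : ℕ in atTop, 2 / (j + 1 : ℝ) + 2 / ‖x m‖ * ‖Q (St j).n x‖ < ε :=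
      hlim.eventually (gt_mem_nhds hε)
    have h2 : ∀ᶠ j : ℕ in atTop, ‖x‖ ≤ (j + 1 : ℝ) := by
      obtain ⟨N, hN⟩ := exists_nat_ge ‖x‖
      filter_upwards [eventually_ge_atTop N] with j hj
      have : (N : ℝ) ≤ j := by exact_mod_cast hj
      linarith
    have h3 : ∀ᶠ j : ℕ in atTop, 1 / (j + 1 : ℝ) ≤ ‖x m‖ := by
      have := (tendsto_one_div_add_atTop_nhds_zero_nat (𝕜 := ℝ)).eventually (gt_mem_nhds hxm)
      filter_upwards [this] with j hj
      exact hj.le
    have h4 : ∀ᶠ j : ℕ in atTop, l < (St j).n := by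
      filter_upwards [eventually_ge_atTop l] with j hj
      exact lt_of_le_of_lt hj (lt_St_n j)
    obtain ⟨j, hj1, hj2, hj3, hj4⟩ := (h1.and (h2.and (h3.and h4))).exists
    obtain ⟨p, hp⟩ := T_star j m l hl hj4 x h0 hj2 hj3
    refine ⟨aeval T p x, aeval_mem hM p hx, ?_⟩
    rw [dist_comm, dist_eq_norm]
    exact lt_of_le_of_lt hp hj1
  rwa [hc.closure_eq] at hcl

lemma mem_of_basis {M : Submodule ℂ E} (hc : IsClosed (M : Set E)) {m : ℕ}
    (hM : ∀ l, m ≤ l → e l ∈ M) {z : E} (hz : ∀ i < m, z i = 0) : z ∈ M := by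
  have h1 : Tendsto (fun n => P n z) atTop (𝓝 z) := by
    rw [tendsto_iff_norm_sub_tendsto_zero]
    refine (Q_tendsto z).congr (fun n => ?_)
    have : P n z - z = - Q n z := by
      have := P_add_Q n z
      rw [eq_comm, neg_eq_iff_eq_neg, neg_sub]
      exact eq_sub_of_add_eq' this
    rw [this, norm_neg]
  refine hc.mem_of_tendsto h1 (Eventually.of_forall (fun n => ?_))
  have h2 := finite_sum_repr (P n z) m n (fun i hi => by
    rw [P_apply]
    split_ifs
    · exact hz i hi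
    · rfl) (fun i hi => by rw [P_apply, if_neg (by omega)])
  rw [h2]
  refine M.sum_mem (fun i hi => M.smul_mem _ (hM i ?_))
  rw [Finset.mem_Ico] at hi
  exact hi.1

lemma ne_bot_order {M : Submodule ℂ E} (h : M ≠ ⊥) :
    ∃ m : ℕ, (∀ x ∈ M, ∀ i < m, x i = 0) ∧ ∃ x ∈ M, x m ≠ 0 := by
  classical
  obtain ⟨x, hx, hx0⟩ := Submodule.exists_mem_ne_zero_of_ne_bot h
  have hex : ∃ m : ℕ, ∃ x ∈ M, x m ≠ 0 := by
    by_contra hcon
    push Not at hcon
    apply hx0
    ext i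
    exact hcon i x hx
  refine ⟨Nat.find hex, fun y hy i hi => ?_, Nat.find_spec hex⟩
  by_contra hne
  exact Nat.find_min hex hi ⟨y, hy, hne⟩

theorem T_unicellular (M N : Submodule ℂ E) (hMc : IsClosed (M : Set E))
    (hNc : IsClosed (N : Set E)) (hM : ∀ x ∈ M, T x ∈ M) (hN : ∀ x ∈ N, T x ∈ N) :
    M ≤ N ∨ N ≤ M := by
  by_cases hM0 : M = ⊥
  · left; rw [hM0]; exact bot_le
  by_cases hN0 : N = ⊥
  · right; rw [hN0]; exact bot_le
  obtain ⟨m, hm1, x, hx, hxm⟩ := ne_bot_order hM0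
  obtain ⟨n, hn1, y, hy, hyn⟩ := ne_bot_order hN0
  have hMe : ∀ l, m ≤ l → e l ∈ M := fun l hl => e_mem hMc hM hx (fun i hi => hm1 x hx i hi) hxm hl
  have hNe : ∀ l, n ≤ l → e l ∈ N := fun l hl => e_mem hNc hN hy (fun i hi => hn1 y hy i hi) hyn hl
  rcases le_total m n with h | h
  · right
    intro z hz
    exact mem_of_basis hMc hMe (fun i hi => hn1 z hz i (by omega))
  · left
    intro z hz
    exact mem_of_basis hNc hNe (fun i hi => hm1 z hz i (by omega))

theorem zero_mem_spectrum : (0 : ℂ) ∈ spectrum ℂ T := by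
  rw [spectrum.mem_iff]
  intro hu
  obtain ⟨U, hU⟩ := hu.exists_right_inv
  have h1 : (algebraMap ℂ (E →L[ℂ] E) 0 - T) (U (e 0)) = e 0 := by
    have := congrArg (fun V : E →L[ℂ] E => V (e 0)) hU
    exact this
  have h2 : (- (T (U (e 0)))) = e 0 := by
    rw [map_zero, zero_sub] at h1
    exact h1
  have h3 : (- (T (U (e 0)))) 0 = (e 0) 0 := by rw [h2]
  have h4 : (- (T (U (e 0)))) 0 = - ((T (U (e 0))) 0) := rfl
  rw [h4] at h3
  have h5 : (T (U (e 0))) 0 = 0 := rfl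
  rw [h5, e_apply, if_pos rfl, neg_zero] at h3
  exact zero_ne_one h3

/- test vectors -/
noncomputable def vv (n K : ℕ) : E := ∑ i ∈ Finset.Ioc n (n + K), e i

lemma vv_apply (n K i : ℕ) : (vv n K) i = if n < i ∧ i ≤ n + K then 1 else 0 := by
  unfold vv
  have : (∑ l ∈ Finset.Ioc n (n + K), e l : E) i = ∑ l ∈ Finset.Ioc n (n + K), (e l) i := by
    rw [lp.coeFn_sum, Finset.sum_apply]
  rw [this]
  simp only [e_apply]
  rw [Finset.sum_ite_eq]
  simp only [Finset.mem_Ioc]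

lemma e_norm (l : ℕ) : ‖e l‖ = 1 := by
  unfold e
  rw [lp.norm_single (by norm_num)]
  simp

lemma vv_norm (n K : ℕ) : ‖vv n K‖ ^ 2 = K := by
  have h1 := E_hasSum (vv n K)
  have h2 : HasSum (fun i => ‖(vv n K) i‖ ^ 2) (∑ i ∈ Finset.Ioc n (n + K), ‖(vv n K) i‖ ^ 2) :=
    hasSum_sum_of_ne_finset_zero (fun i hi => by
      rw [Finset.mem_Ioc] at hi
      rw [vv_apply, if_neg hi]; simp)
  rw [h1.unique h2]
  have h3 : ∀ i ∈ Finset.Ioc n (n + K), ‖(vv n K) i‖ ^ 2 = 1 := by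
    intro i hi
    rw [Finset.mem_Ioc] at hi
    rw [vv_apply, if_pos hi]; simp
  rw [Finset.sum_congr rfl h3]
  simp

lemma test_vector {a w : ℕ → ℝ} (h : Adm a w) (n K : ℕ) (hK : 1 ≤ K) (s : ℝ) (hs : 0 < s)
    (hb : ∀ i, n < i → i ≤ n + K + 1 → a i = s ∧ w i = 1 - s) :
    Top h (vv n K + ((1 / s : ℝ) : ℂ) • (e n - e (n + K))) = vv n K := by
  have hs' : (s : ℂ) ≠ 0 := Complex.ofReal_ne_zero.mpr hs.ne'
  have hx : ∀ i, (vv n K + ((1 / s : ℝ) : ℂ) • (e n - e (n + K))) i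
      = (vv n K) i + ((1 / s : ℝ) : ℂ) * ((e n) i - (e (n + K)) i) := fun i => rfl
  ext i
  rw [Top_apply]
  induction i with
  | zero =>
    rw [vv_apply, if_neg (by omega)]
    rfl
  | succ i ih =>
    have e1 : yrec a w (vv n K + ((1 / s : ℝ) : ℂ) • (e n - e (n + K)) : E) (i + 1)
        = (w (i + 1) : ℂ) * yrec a w (vv n K + ((1 / s : ℝ) : ℂ) • (e n - e (n + K)) : E) i
          + (a (i + 1) : ℂ) * (vv n K + ((1 / s : ℝ) : ℂ) • (e n - e (n + K)) : E) i := rfl
    rw [e1, ih, hx, vv_apply, vv_apply, e_apply, e_apply]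
    rcases lt_trichotomy i n with hi | hi | hi
    · rw [if_neg (by omega), if_neg (by omega), if_neg (by omega), if_neg (by omega)]
      simp
    · subst hi
      obtain ⟨ha, hw⟩ := hb (i + 1) (by omega) (by omega)
      rw [if_neg (by omega), if_pos rfl, if_neg (by omega), if_pos (by omega), ha]
      push_cast
      field_simp
      ring
    · rcases lt_trichotomy i (n + K) with hi2 | hi2 | hi2
      · obtain ⟨ha, hw⟩ := hb (i + 1) (by omega) (by omega)
        rw [if_pos (by omega), if_neg (by omega), if_neg (by omega), if_pos (by omega), ha, hw]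
        push_cast
        ring
      · obtain ⟨ha, hw⟩ := hb (i + 1) (by omega) (by omega)
        rw [if_pos (by omega), if_neg (by omega), if_pos (by omega), if_neg (by omega), ha, hw]
        push_cast
        field_simp
        ring
      · rw [if_neg (by omega), if_neg (by omega), if_neg (by omega), if_neg (by omega)]
        simp

theorem one_mem_spectrum : (1 : ℂ) ∈ spectrum ℂ T := by
  rw [spectrum.mem_iff]
  intro hu
  obtain ⟨U, hU⟩ := hu.exists_left_inv
  have hbound : ∀ j : ℕ, (j + 1 : ℝ) ≤ 2 * (‖U‖ + 1) := by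
    intro j
    obtain ⟨s, K, hs, hK, hK1, hb⟩ := block j
    set n := (St j).n
    have h1 := test_vector f_adm n K hK1 s hs hb
    set u : E := ((1 / s : ℝ) : ℂ) • (e n - e (n + K)) with hu
    have hunorm : ‖u‖ ≤ 2 / s := by
      rw [hu, norm_smul, Complex.norm_real, Real.norm_eq_abs, abs_of_pos (by positivity)]
      calc 1 / s * ‖e n - e (n + K)‖ ≤ 1 / s * (‖e n‖ + ‖e (n + K)‖) := by
            gcongr; exact norm_sub_le _ _
        _ = 2 / s := by rw [e_norm, e_norm]; ring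
    have h2 : (algebraMap ℂ (E →L[ℂ] E) 1 - T) (vv n K + u) = u := by
      have : (algebraMap ℂ (E →L[ℂ] E) 1 - T) (vv n K + u) = (vv n K + u) - T (vv n K + u) := by
        rw [map_one]; rfl
      rw [this]
      have h1' : T (vv n K + u) = vv n K := h1
      rw [h1']; abel
    have h3 : vv n K + u = U u := by
      have := congrArg (fun V : E →L[ℂ] E => V (vv n K + u)) hU
      have h4 : U ((algebraMap ℂ (E →L[ℂ] E) 1 - T) (vv n K + u)) = vv n K + u := this
      rw [h2] at h4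
      exact h4.symm
    have h5 : ‖vv n K‖ ≤ (‖U‖ + 1) * (2 / s) := by
      have : vv n K = U u - u := by rw [← h3]; abel
      rw [this]
      calc ‖U u - u‖ ≤ ‖U u‖ + ‖u‖ := norm_sub_le _ _
        _ ≤ ‖U‖ * ‖u‖ + ‖u‖ := by gcongr; exact U.le_opNorm u
        _ = (‖U‖ + 1) * ‖u‖ := by ring
        _ ≤ (‖U‖ + 1) * (2 / s) := by gcongr
    have h6 : (j + 1 : ℝ) / s ≤ ‖vv n K‖ := by
      refine le_of_sq_le_sq ?_ (norm_nonneg _)
      rw [vv_norm]; exact hK
    have h7 : (j + 1 : ℝ) / s ≤ (2 * (‖U‖ + 1)) / s := by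
      calc (j + 1 : ℝ) / s ≤ (‖U‖ + 1) * (2 / s) := h6.trans h5
        _ = (2 * (‖U‖ + 1)) / s := by ring
    exact (div_le_div_iff_of_pos_right hs).mp h7
  obtain ⟨N, hN⟩ := exists_nat_gt (2 * (‖U‖ + 1))
  have := hbound N
  linarith

end Pool.Agent.Lib.MP_546dcb_an
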